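import Mathlib

/-!
# Collision probabilities of subset sums

For a vector `v` and a finite set `Y` of coordinates: `cnt Y v x` is the number of subsets of `Y`
with sum `x`, `D Y v x` the probability that two independent random subset sums differ by `x`,
`kap Y v = D Y v 0` the collision probability, and `Nn Y v t` the set of `t`-almost periods.
-/

namespace SingG.Conc

open Finset

variable {ι : Type*} [DecidableEq ι]

/-- Number of subsets of `Y` with sum `x`. -/
noncomputable def cnt (Y : Finset ι) (v : ι → ℝ) (x : ℝ) : ℕ :=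
  (Y.powerset.filter (fun a => ∑ l ∈ a, v l = x)).card

/-- Probability that two independent uniform random subset sums of `Y` differ by `x`. -/
noncomputable def D (Y : Finset ι) (v : ι → ℝ) (x : ℝ) : ℝ :=
  (((Y.powerset ×ˢ Y.powerset).filter
    (fun p => ∑ l ∈ p.1, v l - ∑ l ∈ p.2, v l = x)).card : ℝ) / 4 ^ Y.card

/-- Collision probability. -/
noncomputable def kap (Y : Finset ι) (v : ι → ℝ) : ℝ := D Y v 0

/-- Almost periods. -/
noncomputable def Nn (Y : Finset ι) (v : ι → ℝ) (t : ℝ) : Finset ℝ :=
  ((Y.powerset ×ˢ Y.powerset).image (fun p => ∑ l ∈ p.1, v l - ∑ l ∈ p.2, v l)).filter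
    (fun x => (1 - t) * kap Y v ≤ D Y v x)

end SingG.Conc
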