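import Pool.Agent.Lib.MP_686cbb_pr.RowSel
import Pool.Agent.Lib.MP_686cbb_pr.S.Defs

/-!
# One pattern (module Evt)

PROOF. Let `W` be the subspace of all `w` with `w i = ∑_{(f i).1} w - ∑_{(f i).2} w` for `i ∉ B`. A
vector of `W` vanishing on `B` is zero, so `dim W ≤ |B|`.
(1) For every `ω` there is `I ⊆ Bᶜ`, `|I| ≤ |B|`, such that every `w ∈ W` killed by the rows in `I` is
killed by all rows outside `B` (copy the proof of `rowsel` with the family `rowDual ω W` restricted to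
the subtype `{i // i ∉ B}`).
(2) For fixed `I ⊆ Bᶜ` the number of `ω` having a witness `w ∈ W` with `Q w`
(`∀ t, cnt C w t ≤ 2^|C| c`), killed by all rows, and such that `I` determines as in (1), is at most
`c^(n - |B| - |I|) * #Ω`: copy the proof of `count_main` with `J = univ \ (B ∪ I)`, `D j = C` for all
`j` (there the hypothesis on `I` is for all rows; only the rows in `J` are used).
(3) Union over `I`: at most `2^n` sets.
-/

namespace SingG.Conc

open Finset

private def patS {n : ℕ} (B : Finset (Fin n)) (f : Fin n → Finset (Fin n) × Finset (Fin n)) :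
    Submodule ℝ (Fin n → ℝ) where
  carrier := {w | ∀ i ∉ B, w i = ∑ l ∈ (f i).1, w l - ∑ l ∈ (f i).2, w l}
  add_mem' := by
    intro a b ha hb i hi
    simp only [Pi.add_apply, Finset.sum_add_distrib]
    rw [ha i hi, hb i hi]
    ring
  zero_mem' := by
    intro i _
    simp
  smul_mem' := by
    intro c a ha i hi
    simp only [Pi.smul_apply, smul_eq_mul]
    rw [ha i hi, ← Finset.mul_sum, ← Finset.mul_sum]
    ring

private theorem mem_patS {n : ℕ} {B : Finset (Fin n)}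
    {f : Fin n → Finset (Fin n) × Finset (Fin n)} {w : Fin n → ℝ} :
    w ∈ patS B f ↔ ∀ i ∉ B, w i = ∑ l ∈ (f i).1, w l - ∑ l ∈ (f i).2, w l := Iff.rfl

private theorem rowsel' {n : ℕ} (ω : Sym2 (Fin n) → Bool) (W : Submodule ℝ (Fin n → ℝ))
    (B : Finset (Fin n)) (hR : ∀ w ∈ W, (∀ i ∈ B, w i = 0) → w = 0) :
    ∃ I : Finset (Fin n), (∀ i ∈ I, i ∉ B) ∧ I.card ≤ B.card ∧
      ∀ w ∈ W, (∀ i ∈ I, row ω i w = 0) → ∀ i, i ∉ B → row ω i w = 0 := by
  classical
  obtain ⟨κ, a, hinj, hspan, hLI⟩ := exists_linearIndependent' ℝ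
    (fun i : {i : Fin n // i ∉ B} => rowDual ω W i)
  have : Finite κ := Finite.of_injective a hinj
  have : Fintype κ := Fintype.ofFinite κ
  refine ⟨Finset.univ.image (fun k => ((a k : {i : Fin n // i ∉ B}) : Fin n)), ?_, ?_, ?_⟩
  · intro i hi
    obtain ⟨k, _, rfl⟩ := Finset.mem_image.1 hi
    exact (a k).2
  · have h1 := hLI.fintype_card_le_finrank
    rw [Subspace.dual_finrank_eq] at h1
    have h4 : Module.finrank ℝ W ≤ B.card := by
      let res : W →ₗ[ℝ] (B → ℝ) :=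
        { toFun := fun w i => (w : Fin n → ℝ) i
          map_add' := fun _ _ => rfl
          map_smul' := fun _ _ => rfl }
      have hinj' : Function.Injective res := by
        rw [injective_iff_map_eq_zero]
        intro w hw
        have := hR w w.2 (fun i hi => congrFun hw ⟨i, hi⟩)
        exact Subtype.ext this
      have := LinearMap.finrank_le_finrank_of_injective hinj'
      simpa using this
    refine (Finset.card_image_le).trans ?_
    rw [Finset.card_univ]
    omega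
  · intro w hw hI i hi
    have hvan : ∀ φ ∈ Submodule.span ℝ (Set.range
        ((fun i : {i : Fin n // i ∉ B} => rowDual ω W i) ∘ a)), φ ⟨w, hw⟩ = 0 := by
      intro φ hφ
      induction hφ using Submodule.span_induction with
      | mem x hx =>
        obtain ⟨k, rfl⟩ := hx
        exact hI (a k) (Finset.mem_image.2 ⟨k, Finset.mem_univ k, rfl⟩)
      | zero => simp
      | add x y _ _ hx hy => simp [hx, hy]
      | smul c x _ hx => simp [hx]
    have : rowDual ω W i ∈ Submodule.span ℝ (Set.range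
        ((fun i : {i : Fin n // i ∉ B} => rowDual ω W i) ∘ a)) := by
      rw [hspan]
      exact Submodule.subset_span ⟨⟨i, hi⟩, rfl⟩
    exact hvan _ this

private theorem count' {n : ℕ} (W : Set (Fin n → ℝ)) (I B C : Finset (Fin n)) (hCB : C ⊆ B)
    (hI : ∀ i ∈ I, i ∉ B) (Q : (Fin n → ℝ) → Prop) (c : ℝ) (hc0 : 0 ≤ c)
    (hLO : ∀ w ∈ W, Q w → ∀ t : ℝ,
      ((C.powerset.filter (fun x => ∑ l ∈ x, w l = t)).card : ℝ) ≤ 2 ^ C.card * c)
    (Bad : Finset (Sym2 (Fin n) → Bool))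
    (hBad : ∀ ω ∈ Bad, ∃ w ∈ W, Q w ∧ (∀ i, row ω i w = 0) ∧
      ∀ w' ∈ W, (∀ i ∈ I, row ω i w' = 0) → ∀ i, i ∉ B → row ω i w' = 0) :
    (Bad.card : ℝ) ≤ c ^ (univ \ (B ∪ I)).card * Fintype.card (Sym2 (Fin n) → Bool) := by
  classical
  set J : Finset (Fin n) := univ \ (B ∪ I) with hJdef
  have hJB : ∀ j ∈ J, j ∉ B := by
    intro j hj h
    rw [hJdef, mem_sdiff, mem_union] at hj
    exact hj.2 (Or.inl h)
  have hJI : ∀ j ∈ J, j ∉ I := by
    intro j hj h
    rw [hJdef, mem_sdiff, mem_union] at hj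
    exact hj.2 (Or.inr h)
  set G0 : Finset (Sym2 (Fin n) → Bool) :=
    Finset.univ.filter (fun ω => ∃ w ∈ Kset W I ω, Q w) with hG0
  set u : (Sym2 (Fin n) → Bool) → Fin n → ℝ := fun ω => pick Q (Kset W I ω) with hu
  have hK : ∀ ω ω' : Sym2 (Fin n) → Bool, (∀ e, (∀ j ∈ J, e ∉ Fs j C) → ω' e = ω e) →
      Kset W I ω' = Kset W I ω := by
    intro ω ω' h
    have hrow : ∀ i ∈ I, ∀ w ∈ W, row ω' i w = row ω i w := by
      intro i hi w _
      apply row_congr
      intro l _ _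
      apply h
      intro j hj
      rw [mem_Fs (fun h => hJB j hj (hCB h))]
      rintro (⟨h1, _⟩ | ⟨_, h2⟩)
      · exact hJI j hj (h1 ▸ hi)
      · exact hI i hi (hCB h2)
    ext w
    simp only [Kset, Set.mem_ofPred_eq]
    constructor
    · rintro ⟨hw, h1⟩
      exact ⟨hw, fun i hi => by rw [← hrow i hi w hw]; exact h1 i hi⟩
    · rintro ⟨hw, h1⟩
      exact ⟨hw, fun i hi => by rw [hrow i hi w hw]; exact h1 i hi⟩
  have hchain := chain (fun _ => C) c hc0 G0 u J (fun j hj h => hJB j hj (hCB h))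
    (fun i hi _ _ _ h => hJB i hi (hCB h)) (by
      intro ω hω ω' h
      have hKe := hK ω ω' h
      constructor
      · simp only [hG0, mem_filter, mem_univ, true_and] at hω ⊢
        rw [hKe]
        exact hω
      · simp only [hu, hKe]) (by
      intro ω hω j _ t
      simp only [hG0, mem_filter, mem_univ, true_and] at hω
      obtain ⟨h1, h2⟩ := pick_spec hω
      exact hLO _ h1.1 h2 t)
  have hsub : Bad ⊆ G0.filter (fun ω => ∀ j ∈ J, row ω j (u ω) = 0) := by
    intro ω hω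
    obtain ⟨w, hw, hQ, hall, hdet⟩ := hBad ω hω
    have hex : ∃ w ∈ Kset W I ω, Q w := ⟨w, ⟨hw, fun i _ => hall i⟩, hQ⟩
    simp only [hG0, mem_filter, mem_univ, true_and]
    refine ⟨hex, ?_⟩
    intro j hj
    obtain ⟨h1, _⟩ := pick_spec hex
    exact hdet _ h1.1 h1.2 j (hJB j hj)
  calc (Bad.card : ℝ) ≤ ((G0.filter (fun ω => ∀ j ∈ J, row ω j (u ω) = 0)).card : ℝ) := by
        exact_mod_cast Finset.card_le_card hsub
    _ ≤ c ^ J.card * G0.card := by convert hchain
    _ ≤ c ^ J.card * Fintype.card (Sym2 (Fin n) → Bool) := by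
        apply mul_le_mul_of_nonneg_left _ (by positivity)
        exact_mod_cast Finset.card_le_univ G0

theorem one_pattern {n : ℕ} (B C : Finset (Fin n)) (hCB : C ⊆ B)
    (f : Fin n → Finset (Fin n) × Finset (Fin n)) (hf : ∀ i, (f i).1 ⊆ B ∧ (f i).2 ⊆ B)
    (c : ℝ) (hc0 : 0 ≤ c) (hc1 : c ≤ 1) (Bad : Finset (Sym2 (Fin n) → Bool))
    (hBad : ∀ ω ∈ Bad, ∃ w : Fin n → ℝ,
      (∀ i ∉ B, w i = ∑ l ∈ (f i).1, w l - ∑ l ∈ (f i).2, w l) ∧
      (∀ t : ℝ, (cnt C w t : ℝ) ≤ 2 ^ C.card * c) ∧ ∀ i, row ω i w = 0) :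
    (Bad.card : ℝ) ≤ 2 ^ n * c ^ (n - 2 * B.card) * Fintype.card (Sym2 (Fin n) → Bool) := by
  classical
  have hR : ∀ w ∈ patS B f, (∀ i ∈ B, w i = 0) → w = 0 := by
    intro w hw h0
    funext i
    by_cases hi : i ∈ B
    · exact h0 i hi
    · rw [mem_patS.1 hw i hi, Finset.sum_eq_zero (fun l hl => h0 l ((hf i).1 hl)),
        Finset.sum_eq_zero (fun l hl => h0 l ((hf i).2 hl))]
      simp
  have hsel : ∀ ω : Sym2 (Fin n) → Bool, ∃ I : Finset (Fin n), (∀ i ∈ I, i ∉ B) ∧
      I.card ≤ B.card ∧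
      ∀ w ∈ patS B f, (∀ i ∈ I, row ω i w = 0) → ∀ i, i ∉ B → row ω i w = 0 :=
    fun ω => rowsel' ω (patS B f) B hR
  choose Iω hI1 hI2 hI3 using hsel
  set Is : Finset (Finset (Fin n)) := univ.filter (fun I => (∀ i ∈ I, i ∉ B) ∧ I.card ≤ B.card)
    with hIs
  have hone : ∀ I ∈ Is, ((Bad.filter (fun ω => Iω ω = I)).card : ℝ) ≤
      c ^ (n - 2 * B.card) * Fintype.card (Sym2 (Fin n) → Bool) := by
    intro I hI
    obtain ⟨h1, h2⟩ := (mem_filter.1 hI).2
    have h3 := count' (patS B f : Set (Fin n → ℝ)) I B C hCB h1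
      (fun w => ∀ t : ℝ, (cnt C w t : ℝ) ≤ 2 ^ C.card * c) c hc0 (fun w _ hQ t => hQ t)
      (Bad.filter (fun ω => Iω ω = I)) (by
        intro ω hω
        obtain ⟨hω1, hω2⟩ := mem_filter.1 hω
        obtain ⟨w, hw1, hw2, hw3⟩ := hBad ω hω1
        refine ⟨w, hw1, hw2, hw3, ?_⟩
        intro w' hw' h4
        exact hI3 ω w' hw' (by rw [hω2]; exact h4))
    refine h3.trans ?_
    apply mul_le_mul_of_nonneg_right _ (by positivity)
    apply pow_le_pow_of_le_one hc0 hc1
    have h4 : (univ \ (B ∪ I)).card + (B ∪ I).card = n := by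
      rw [card_sdiff_of_subset (subset_univ _), card_univ, Fintype.card_fin]
      have := card_le_univ (B ∪ I)
      rw [Fintype.card_fin] at this
      omega
    have h5 := card_union_le B I
    omega
  have hcard : (Bad.card : ℝ) = ∑ I ∈ Is, ((Bad.filter (fun ω => Iω ω = I)).card : ℝ) := by
    rw [card_eq_sum_card_fiberwise (f := Iω) (t := Is)]
    · push_cast
      rfl
    · intro ω _
      exact mem_filter.2 ⟨mem_univ _, hI1 ω, hI2 ω⟩
  have hIscard : (Is.card : ℝ) ≤ 2 ^ n := by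
    have : Is.card ≤ 2 ^ n := by
      refine (card_le_univ _).trans (le_of_eq ?_)
      rw [Fintype.card_finset, Fintype.card_fin]
    exact_mod_cast this
  calc (Bad.card : ℝ) = ∑ I ∈ Is, ((Bad.filter (fun ω => Iω ω = I)).card : ℝ) := hcard
    _ ≤ ∑ _I ∈ Is, c ^ (n - 2 * B.card) * (Fintype.card (Sym2 (Fin n) → Bool) : ℝ) :=
        sum_le_sum hone
    _ = Is.card * (c ^ (n - 2 * B.card) * (Fintype.card (Sym2 (Fin n) → Bool) : ℝ)) := by
        rw [sum_const, nsmul_eq_mul]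
    _ ≤ 2 ^ n * (c ^ (n - 2 * B.card) * (Fintype.card (Sym2 (Fin n) → Bool) : ℝ)) :=
        mul_le_mul_of_nonneg_right hIscard (by positivity)
    _ = _ := by ring

end SingG.Conc
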