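import Pool.Agent.Lib.MP_686cbb_pr.S.Scl

/-!
# Numerical estimates, first part (module Num1)

PROOF. Let `q = qq n = ⌊n^(1/6)⌋` so that `q ≤ n^(1/6) < q + 1 ≤ 2 q` for `n ≥ 1`.
* `(1 - t/2)^r ≤ exp(-t r/2) = exp(-(⌊log n⌋ + 1)) ≤ 1/n`.
* `4/n + 2/q + 2 √(1/n) ≤ 8/q` as `q ≤ n` and `q ≤ √n`.
* `(3/4)^m < exp(-2R)` for `m > 8 R` as `log (4/3) ≥ 1/4` (`exp (1/4) < 4/3`).
* `2 * 16^n (8/q)^n exp(n log n / 12) ≤ (1/4)^n` for large `n`, as `8/q ≤ 16 n^(-1/6)`: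
  exponent `log 2 + n log 16 + n log 16 - n log n / 6 + n log n / 12 + n log 4 ≤ 0`.
-/

namespace SingG.Conc

open Filter

private theorem n1_x (n : ℕ) (hn : (9 : ℝ) ≤ (n : ℝ) ^ (1 / 6 : ℝ)) :
    (qq n : ℝ) ≤ (n : ℝ) ^ (1 / 6 : ℝ) ∧ (n : ℝ) ^ (1 / 6 : ℝ) < (qq n : ℝ) + 1 ∧ 8 ≤ (qq n : ℝ) := by
  have h1 : (qq n : ℝ) ≤ (n : ℝ) ^ (1 / 6 : ℝ) := Nat.floor_le (by linarith)
  have h2 : (n : ℝ) ^ (1 / 6 : ℝ) < (qq n : ℝ) + 1 := Nat.lt_floor_add_one _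
  exact ⟨h1, h2, by linarith⟩

private theorem n1_ev (K : ℝ) : ∀ᶠ n : ℕ in atTop, K ≤ (n : ℝ) ^ (1 / 6 : ℝ) ∧ (1 : ℝ) ≤ n := by
  have h1 := ((tendsto_rpow_atTop (show (0 : ℝ) < 1 / 6 by norm_num)).comp
    tendsto_natCast_atTop_atTop).eventually (eventually_ge_atTop K)
  filter_upwards [h1, eventually_ge_atTop 1] with n h2 h3
  exact ⟨h2, by exact_mod_cast h3⟩

theorem num_one : ∀ᶠ n : ℕ in atTop, 1 ≤ qq n ∧ 0 < tt n ∧ tt n ≤ 1 / 2 ∧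
    ((qq n : ℕ) : ℝ) ^ 2 * tt n ≤ 1 / 2 ∧ (1 - tt n / 2) ^ rr n ≤ 1 / (n : ℝ) ∧
    4 / (n : ℝ) + 2 / (qq n : ℝ) + 2 * √(1 / (n : ℝ)) ≤ 8 / qq n ∧ 8 / (qq n : ℝ) ≤ 1 := by
  filter_upwards [n1_ev 9] with n hn
  obtain ⟨hn9, hn1⟩ := hn
  obtain ⟨hq1, hq2, hq8⟩ := n1_x n hn9
  have hn0 : (0 : ℝ) < n := by linarith
  have hq0 : (0 : ℝ) < (qq n : ℝ) := by linarith
  have hqq : (0 : ℝ) < (qq n : ℝ) ^ 2 := by positivity
  have ht : tt n = 1 / (2 * (qq n : ℝ) ^ 2) := rfl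
  have ht0 : 0 < tt n := by rw [ht]; positivity
  have ht2 : (qq n : ℝ) ^ 2 * tt n = 1 / 2 := by
    rw [ht]
    field_simp
  have ht1 : tt n ≤ 1 / 2 := by
    rw [← ht2]
    have : (1 : ℝ) ≤ (qq n : ℝ) ^ 2 := one_le_pow₀ (by linarith)
    nlinarith
  have hxs : (n : ℝ) ^ (1 / 6 : ℝ) ≤ √(n : ℝ) := by
    rw [Real.sqrt_eq_rpow]
    exact Real.rpow_le_rpow_of_exponent_le hn1 (by norm_num)
  have hqs : (qq n : ℝ) ≤ √(n : ℝ) := hq1.trans hxs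
  have hs0 : 0 < √(n : ℝ) := Real.sqrt_pos.mpr hn0
  have hsn : √(n : ℝ) ≤ n := by
    have h1 : √(n : ℝ) * √(n : ℝ) = n := Real.mul_self_sqrt hn0.le
    nlinarith
  have hqn : (qq n : ℝ) ≤ n := hqs.trans hsn
  refine ⟨?_, ht0, ht1, ht2.le, ?_, ?_, ?_⟩
  · have : (1 : ℝ) ≤ (qq n : ℝ) := by linarith
    exact_mod_cast this
  · have h1 : 1 - tt n / 2 ≤ Real.exp (-(tt n / 2)) := Real.one_sub_le_exp_neg _
    have h2 : (0 : ℝ) ≤ 1 - tt n / 2 := by linarith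
    have h3 : (rr n : ℝ) = 4 * (qq n : ℝ) ^ 2 * ((⌊Real.log n⌋₊ : ℝ) + 1) := by
      unfold rr
      push_cast
      ring
    have h4 : (rr n : ℝ) * (-(tt n / 2)) = -((⌊Real.log n⌋₊ : ℝ) + 1) := by
      rw [h3]
      have : 4 * (qq n : ℝ) ^ 2 * ((⌊Real.log n⌋₊ : ℝ) + 1) * (-(tt n / 2))
          = -(2 * ((qq n : ℝ) ^ 2 * tt n) * ((⌊Real.log n⌋₊ : ℝ) + 1)) := by ring
      rw [this, ht2]
      ring
    calc (1 - tt n / 2) ^ rr n ≤ Real.exp (-(tt n / 2)) ^ rr n := pow_le_pow_left₀ h2 h1 _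
      _ = Real.exp (-((⌊Real.log n⌋₊ : ℝ) + 1)) := by rw [← Real.exp_nat_mul, h4]
      _ ≤ Real.exp (-Real.log n) := by
          apply Real.exp_le_exp.mpr
          have := (Nat.lt_floor_add_one (Real.log n)).le
          linarith
      _ = 1 / (n : ℝ) := by rw [Real.exp_neg, Real.exp_log hn0, one_div]
  · have h1 : 4 / (n : ℝ) ≤ 4 / (qq n : ℝ) := div_le_div_of_nonneg_left (by norm_num) hq0 hqn
    have h2 : √(1 / (n : ℝ)) ≤ 1 / (qq n : ℝ) := by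
      rw [Real.sqrt_div zero_le_one, Real.sqrt_one]
      exact div_le_div_of_nonneg_left zero_le_one hq0 hqs
    have h3 : 4 / (qq n : ℝ) + 2 / (qq n : ℝ) + 2 * (1 / (qq n : ℝ)) = 8 / qq n := by
      field_simp
      norm_num
    linarith
  · rw [div_le_one hq0]
    exact hq8

theorem num_m₀ (R : ℝ) (hR : 0 ≤ R) : (3 / 4 : ℝ) ^ (⌊8 * R⌋₊ + 1) < Real.exp (-(2 * R)) := by
  have h1 : (3 / 4 : ℝ) ≤ Real.exp (-(1 / 4)) := by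
    have := Real.add_one_le_exp (-(1 / 4 : ℝ))
    linarith
  have h2 : 8 * R < ((⌊8 * R⌋₊ + 1 : ℕ) : ℝ) := by
    push_cast
    exact Nat.lt_floor_add_one _
  calc (3 / 4 : ℝ) ^ (⌊8 * R⌋₊ + 1) ≤ Real.exp (-(1 / 4)) ^ (⌊8 * R⌋₊ + 1) :=
        pow_le_pow_left₀ (by norm_num) h1 _
    _ = Real.exp (((⌊8 * R⌋₊ + 1 : ℕ) : ℝ) * (-(1 / 4))) := by rw [← Real.exp_nat_mul]
    _ < Real.exp (-(2 * R)) := by
        apply Real.exp_lt_exp.mpr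
        linarith

theorem num_four : ∀ᶠ n : ℕ in atTop,
    2 * 16 ^ n * (8 / (qq n : ℝ)) ^ n * Real.exp (n * Real.log n / 12) ≤ (1 / 4 : ℝ) ^ n := by
  filter_upwards [n1_ev (2048 ^ 2), eventually_ge_atTop 1] with n hn hn1'
  obtain ⟨hnK, hn1⟩ := hn
  have hn0 : (0 : ℝ) < n := by linarith
  obtain ⟨hq1, hq2, hq8⟩ := n1_x n (le_trans (by norm_num) hnK)
  have hq0 : (0 : ℝ) < (qq n : ℝ) := by linarith
  obtain ⟨y, hy⟩ : ∃ y : ℝ, y = Real.exp (Real.log n / 12) := ⟨_, rfl⟩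
  have hy0 : 0 < y := by rw [hy]; exact Real.exp_pos _
  have hx : (n : ℝ) ^ (1 / 6 : ℝ) = y ^ 2 := by
    rw [hy, Real.rpow_def_of_pos hn0, ← Real.exp_nat_mul]
    congr 1
    push_cast
    ring
  have he : Real.exp (n * Real.log n / 12) = y ^ n := by
    rw [hy, ← Real.exp_nat_mul]
    congr 1
    ring
  have hy2 : (2048 : ℝ) ≤ y := by
    rw [hx] at hnK
    exact le_of_sq_le_sq hnK hy0.le
  have h1 : 8 / (qq n : ℝ) ≤ 16 / y ^ 2 := by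
    rw [← hx, div_le_div_iff₀ hq0 (by linarith)]
    linarith
  have h2 : (8 / (qq n : ℝ)) ^ n ≤ (16 / y ^ 2) ^ n := pow_le_pow_left₀ (by positivity) h1 _
  rw [he]
  calc 2 * 16 ^ n * (8 / (qq n : ℝ)) ^ n * y ^ n ≤ 2 * 16 ^ n * (16 / y ^ 2) ^ n * y ^ n := by
        gcongr
    _ = 2 * (256 / y) ^ n := by
        rw [mul_assoc, mul_assoc, ← mul_pow, ← mul_pow]
        congr 2
        field_simp
        norm_num
    _ ≤ 2 * (1 / 8 : ℝ) ^ n := by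
        have h3 : 256 / y ≤ 1 / 8 := by
          rw [div_le_iff₀ hy0]
          linarith
        have h4 : (256 / y) ^ n ≤ (1 / 8 : ℝ) ^ n := pow_le_pow_left₀ (by positivity) h3 _
        linarith
    _ = 2 * (1 / 2 : ℝ) ^ n * (1 / 4 : ℝ) ^ n := by
        rw [mul_assoc, ← mul_pow]
        norm_num
    _ ≤ 1 * (1 / 4 : ℝ) ^ n := by
        refine mul_le_mul_of_nonneg_right ?_ (by positivity)
        have h5 : (1 / 2 : ℝ) ^ n ≤ (1 / 2 : ℝ) ^ 1 :=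
          pow_le_pow_of_le_one (by norm_num) (by norm_num) hn1'
        linarith
    _ = (1 / 4 : ℝ) ^ n := one_mul _

end SingG.Conc
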