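import Pool.Agent.Lib.MP_686cbb_pr.S.Scl

/-!
# Numerical estimates, second part (module Num2)

PROOF. Let `q = qq n ≤ n^(1/6)`, `r = rr n = 4 q^2 (⌊log n⌋ + 1) = O(n^(1/3) log n)`,
`m = ⌊8R⌋ + 1 ≤ 8 R + 1`. From `log n ≤ R` and `R (R + x) ≤ n log n / 10^4`:
`R ≤ √(n log n) / 100` and `x ≤ n / 10^4`.
* `num_two`: `2 m + r + x ≤ n / 4` and `2 (2 (m + r) + x) ≤ n` for large `n`, clear.
* `num_three`: with `M = 2 (m + r) + x ≤ 16 R + 2 + 2 r + x`: `exp(2R)^(2M) = exp(4 R M)`,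
  `4 R M ≤ 64 R^2 + 4 R x + 8 R + 8 R r ≤ 64 n log n / 10^4 + 8 R + 8 R r`, and
  `(m + r)^2 log 16 ≤ 3 (8 R + 1 + r)^2 ≤ 3 (128 R^2 + 2 (1 + r)^2)`,
  `R r = O(n^(5/6) (log n)^(3/2))`, `r^2 = O(n^(2/3) (log n)^2)`. Total at most
  `(64 + 384) n log n / 10^4 + o(n log n) ≤ n log n / 12` for large `n`.
-/

namespace SingG.Conc

open Filter

private theorem base : ∀ᶠ n : ℕ in atTop, 1 ≤ Real.log n ∧ 10 * Real.log n ≤ n ∧
    (1 + (rr n : ℝ)) ^ 2 ≤ n * Real.log n / 1000 := by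
  have h1 : ∀ᶠ x : ℝ in atTop, 1 ≤ Real.log x := by
    filter_upwards [eventually_ge_atTop (Real.exp 1)] with x hx
    rwa [Real.le_log_iff_exp_le (lt_of_lt_of_le (Real.exp_pos 1) hx)]
  have h2 : ∀ᶠ x : ℝ in atTop, 81000 * Real.log x ≤ x ^ (1 / 3 : ℝ) := by
    have := (isLittleO_log_rpow_atTop (show (0 : ℝ) < 1 / 3 by norm_num)).bound
      (show (0 : ℝ) < 1 / 81000 by norm_num)
    filter_upwards [this, eventually_ge_atTop (1 : ℝ)] with x hx hx1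
    have h3 : 0 ≤ Real.log x := Real.log_nonneg hx1
    have h4 : 0 ≤ x ^ (1 / 3 : ℝ) := Real.rpow_nonneg (by linarith) _
    rw [Real.norm_of_nonneg h3, Real.norm_of_nonneg h4] at hx
    linarith
  filter_upwards [tendsto_natCast_atTop_atTop.eventually h1,
    tendsto_natCast_atTop_atTop.eventually h2, eventually_ge_atTop 1] with n hL hy hn
  have hn1 : (1 : ℝ) ≤ n := by exact_mod_cast hn
  have hn0 : (0 : ℝ) ≤ n := by linarith
  set L := Real.log n with hLdef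
  set y := (n : ℝ) ^ (1 / 3 : ℝ) with hydef
  have hy3 : y ^ 3 = n := by
    rw [hydef, ← Real.rpow_natCast, ← Real.rpow_mul hn0]
    norm_num
  have hy0 : 0 ≤ y := Real.rpow_nonneg hn0 _
  have hy1 : 81000 ≤ y := by linarith
  have hq : ((qq n : ℕ) : ℝ) ≤ (n : ℝ) ^ (1 / 6 : ℝ) := Nat.floor_le (Real.rpow_nonneg hn0 _)
  have hq2 : ((qq n : ℕ) : ℝ) ^ 2 ≤ y := by
    calc ((qq n : ℕ) : ℝ) ^ 2 ≤ ((n : ℝ) ^ (1 / 6 : ℝ)) ^ 2 :=
          pow_le_pow_left₀ (Nat.cast_nonneg _) hq 2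
      _ = y := by
        rw [hydef, ← Real.rpow_natCast, ← Real.rpow_mul hn0]
        norm_num
  have hfl : ((⌊L⌋₊ : ℕ) : ℝ) ≤ L := Nat.floor_le (by linarith)
  have hr : (rr n : ℝ) ≤ 4 * y * (L + 1) := by
    have : (rr n : ℝ) = 4 * ((qq n : ℕ) : ℝ) ^ 2 * (((⌊L⌋₊ : ℕ) : ℝ) + 1) := by
      rw [rr]; push_cast; ring
    rw [this]
    have hf0 : (0 : ℝ) ≤ ((⌊L⌋₊ : ℕ) : ℝ) := Nat.cast_nonneg _
    apply mul_le_mul _ (by linarith) (by linarith) (by positivity)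
    linarith
  have hr0 : (0 : ℝ) ≤ rr n := Nat.cast_nonneg _
  have h1r : 1 + (rr n : ℝ) ≤ 9 * y * L := by
    have : 4 * y * (L + 1) ≤ 8 * y * L := by nlinarith
    have h3 : (1 : ℝ) ≤ y * L := by nlinarith
    nlinarith
  refine ⟨hL, ?_, ?_⟩
  · rw [← hy3]
    have : y ≤ y ^ 3 := by
      have h4 : 1 ≤ y ^ 2 := by nlinarith
      nlinarith
    linarith
  · calc (1 + (rr n : ℝ)) ^ 2 ≤ (9 * y * L) ^ 2 := pow_le_pow_left₀ (by linarith) h1r 2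
      _ = y ^ 2 * L * (81 * L) := by ring
      _ ≤ y ^ 2 * L * (y / 1000) := by
        apply mul_le_mul_of_nonneg_left _ (by positivity)
        linarith
      _ = y ^ 3 * L / 1000 := by ring
      _ = n * L / 1000 := by rw [hy3]

/-- Sizes. -/
theorem num_two : ∀ᶠ n : ℕ in atTop, ∀ (R : ℝ) (x : ℕ), Real.log n ≤ R →
    R * (R + x) ≤ n * Real.log n / 10 ^ 4 →
    (n : ℝ) / 2 + (2 * ((⌊8 * R⌋₊ + 1 : ℕ) : ℝ) + rr n) + x ≤ (3 / 4 : ℝ) * n ∧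
    2 * (2 * (⌊8 * R⌋₊ + 1 + rr n) + x) ≤ n := by
  filter_upwards [base, eventually_ge_atTop 1] with n hn hn1 R x hLR hR
  obtain ⟨hL, h10, hr⟩ := hn
  have hn1' : (1 : ℝ) ≤ n := by exact_mod_cast hn1
  set L := Real.log n with hLdef
  have hR0 : 0 < R := by linarith
  have hx0 : (0 : ℝ) ≤ x := Nat.cast_nonneg _
  have hr0 : (0 : ℝ) ≤ rr n := Nat.cast_nonneg _
  have hxn : (x : ℝ) ≤ n / 10 ^ 4 := by
    have h1 : R * x ≤ R * (n / 10 ^ 4) := by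
      have h2 : (n : ℝ) * L / 10 ^ 4 ≤ R * (n / 10 ^ 4) := by
        have : (n : ℝ) * L ≤ n * R := mul_le_mul_of_nonneg_left hLR (by linarith)
        linarith
      nlinarith
    exact le_of_mul_le_mul_left h1 hR0
  have hRn : R ≤ n / 100 := by
    have h1 : R ^ 2 ≤ (n / 100 : ℝ) ^ 2 := by
      have h2 : R ^ 2 ≤ n * L / 10 ^ 4 := by nlinarith
      have h3 : (n : ℝ) * L ≤ n * n := mul_le_mul_of_nonneg_left (by linarith) (by linarith)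
      nlinarith
    exact (abs_le_of_sq_le_sq' h1 (by positivity)).2
  have hrn : 1 + (rr n : ℝ) ≤ n / 100 := by
    have h1 : (1 + (rr n : ℝ)) ^ 2 ≤ (n / 100 : ℝ) ^ 2 := by
      have h3 : (n : ℝ) * (10 * L) ≤ n * n := mul_le_mul_of_nonneg_left h10 (by linarith)
      nlinarith
    exact (abs_le_of_sq_le_sq' h1 (by positivity)).2
  have hfl : ((⌊8 * R⌋₊ : ℕ) : ℝ) ≤ 8 * R := Nat.floor_le (by linarith)
  constructor
  · push_cast
    linarith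
  · have : ((2 * (2 * (⌊8 * R⌋₊ + 1 + rr n) + x) : ℕ) : ℝ) ≤ (n : ℝ) := by
      push_cast
      linarith
    exact_mod_cast this

/-- The loss. -/
theorem num_three : ∀ᶠ n : ℕ in atTop, ∀ (R : ℝ) (x : ℕ), Real.log n ≤ R →
    R * (R + x) ≤ n * Real.log n / 10 ^ 4 →
    Real.exp (2 * R) ^ (2 * (2 * (⌊8 * R⌋₊ + 1 + rr n) + x)) *
      (16 ^ (⌊8 * R⌋₊ + 1 + rr n)) ^ (⌊8 * R⌋₊ + 1 + rr n) ≤
      Real.exp (n * Real.log n / 12) := by
  filter_upwards [base, eventually_ge_atTop 1] with n hn hn1 R x hLR hR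
  obtain ⟨hL, h10, hr⟩ := hn
  have hn1' : (1 : ℝ) ≤ n := by exact_mod_cast hn1
  set L := Real.log n with hLdef
  have hR0 : 0 < R := by linarith
  have hx0 : (0 : ℝ) ≤ x := Nat.cast_nonneg _
  have hr0 : (0 : ℝ) ≤ rr n := Nat.cast_nonneg _
  have hfl : ((⌊8 * R⌋₊ : ℕ) : ℝ) ≤ 8 * R := Nat.floor_le (by linarith)
  set a := ⌊8 * R⌋₊ + 1 + rr n with ha
  have ha' : (a : ℝ) ≤ 8 * R + 1 + rr n := by rw [ha]; push_cast; linarith
  have ha0 : (0 : ℝ) ≤ a := Nat.cast_nonneg _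
  have h16 : (16 : ℝ) = Real.exp (Real.log 16) := (Real.exp_log (by norm_num)).symm
  have hlog16 : Real.log 16 ≤ 3 := by
    have h1 : Real.log 16 = 4 * Real.log 2 := by
      rw [show (16 : ℝ) = 2 ^ 4 by norm_num, Real.log_pow]; norm_num
    have := Real.log_two_lt_d9
    rw [h1]; linarith
  have e1 : Real.exp (2 * R) ^ (2 * (2 * a + x)) = Real.exp (4 * R * (2 * a + x)) := by
    rw [← Real.exp_nat_mul]; congr 1; push_cast; ring
  have e2 : ((16 : ℝ) ^ a) ^ a = Real.exp (a ^ 2 * Real.log 16) := by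
    rw [← pow_mul, h16, ← Real.exp_nat_mul, ← h16]; congr 1; push_cast; ring
  rw [e1, e2, ← Real.exp_add]
  apply Real.exp_le_exp.2
  have hR2 : R ^ 2 ≤ n * L / 10 ^ 4 := by nlinarith
  have b1 : 4 * R * (2 * a + x) ≤ 64 * (R * (R + x)) + R ^ 2 + 16 * (1 + (rr n : ℝ)) ^ 2 := by
    have c1 : 4 * R * (2 * a + x) ≤ 4 * R * (2 * (8 * R + 1 + rr n) + x) := by
      apply mul_le_mul_of_nonneg_left _ (by linarith)
      linarith
    have c2 : 0 ≤ (R - 4 * (1 + (rr n : ℝ))) ^ 2 := sq_nonneg _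
    have c3 : 0 ≤ R * x := by positivity
    nlinarith
  have b2 : (a : ℝ) ^ 2 * Real.log 16 ≤ 384 * R ^ 2 + 6 * (1 + (rr n : ℝ)) ^ 2 := by
    have c0 : (a : ℝ) ^ 2 ≤ (8 * R + 1 + rr n) ^ 2 := pow_le_pow_left₀ ha0 ha' 2
    have c1 : (a : ℝ) ^ 2 * Real.log 16 ≤ (8 * R + 1 + rr n) ^ 2 * 3 :=
      mul_le_mul c0 hlog16 (Real.log_nonneg (by norm_num)) (sq_nonneg _)
    have c2 : 0 ≤ (8 * R - (1 + (rr n : ℝ))) ^ 2 := sq_nonneg _
    nlinarith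
  have hnL : 0 ≤ (n : ℝ) * L := by positivity
  linarith

end SingG.Conc
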