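import Pool.Agent.Lib.MP_686cbb_pr.S.Typ
import Pool.Agent.Lib.MP_686cbb_pr.S.Evt

/-!
# The union bound (module Uni)

PROOF. For `B, C, Y` (at most `2^n` each), `θ ∈ {1/2, t}`, `E ∈ 𝓔(Y, θ)` (`exists_types`) and
`f : Fin n → E` apply `one_pattern` with `c = g / |E|`. If `ω` is in the set, take its
`v, B, C, Y, θ, c₀`, the `E` for `v` and, for `i ∉ B`, `f i ∈ E` with `v i = s_{f i}(v)` (for `i ∈ B`
any element of `E`; `E` is nonempty since `0 ∈ Nn`). Since `|E| ≤ |Nn Y v θ| ≤ g / c₀`, `c₀ ≤ g / |E|`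
and `cnt C v x ≤ 2^|C| c`. The contribution of `(B, C, Y, θ, E)` is at most
`|E|^n 2^n (g/|E|)^(n - 2|B|) = 2^n g^n (|E|/g)^(2|B|) ≤ 2^n g^n (1/c₀)^(2|B|)`, and
`(1/c₀)^(2|B|) (16^|Y|)^|Y| ≤ M`: restrict the union to those `(B, C, Y, θ, E)` with
`(|E|/g)^(2|B|) * (16^|Y|)^|Y| ≤ M`, `2 |B| ≤ n`, `|E| ≥ 1`, `g ≤ |E|` (true as `g ≤ 1`). Total
`2^n 2^n 2^n * 2 * 2^n g^n M`.
-/

namespace SingG.Conc

open Finset

open Classical in
/-- the bad outcomes for one pattern -/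
private noncomputable def uBad {n : ℕ} (B C : Finset (Fin n))
    (f : Fin n → Finset (Fin n) × Finset (Fin n)) (c : ℝ) : Finset (Sym2 (Fin n) → Bool) :=
  univ.filter (fun ω => ∃ w : Fin n → ℝ,
      (∀ i ∉ B, w i = ∑ l ∈ (f i).1, w l - ∑ l ∈ (f i).2, w l) ∧
      (∀ t : ℝ, (cnt C w t : ℝ) ≤ 2 ^ C.card * c) ∧ ∀ i, row ω i w = 0)

open Classical in
private noncomputable def uT {n : ℕ} (B C : Finset (Fin n))
    (E : Finset (Finset (Fin n) × Finset (Fin n))) (g : ℝ) : Finset (Sym2 (Fin n) → Bool) :=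
  (Fintype.piFinset (fun _ : Fin n => E)).biUnion (fun f => uBad B C f (g / E.card))

private theorem uT_card {n : ℕ} (B C Y : Finset (Fin n)) (hYC : Y ⊆ C) (hCB : C ⊆ B)
    (hB : 2 * B.card ≤ n)
    (E : Finset (Finset (Fin n) × Finset (Fin n))) (hE : E.Nonempty)
    (hEY : ∀ p ∈ E, p.1 ⊆ Y ∧ p.2 ⊆ Y) (g : ℝ) (hg0 : 0 < g) (hg1 : g ≤ 1) :
    ((uT B C E g).card : ℝ) ≤ 2 ^ n * g ^ n * ((E.card : ℝ) / g) ^ (2 * B.card) *
      Fintype.card (Sym2 (Fin n) → Bool) := by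
  classical
  obtain ⟨N, hN⟩ : ∃ N : ℝ, N = (Fintype.card (Sym2 (Fin n) → Bool) : ℝ) := ⟨_, rfl⟩
  have hN0 : 0 ≤ N := by rw [hN]; positivity
  have hE1 : (1 : ℝ) ≤ (E.card : ℝ) := by exact_mod_cast hE.card_pos
  obtain ⟨e, he⟩ : ∃ e : ℝ, e = (E.card : ℝ) := ⟨_, rfl⟩
  rw [← he] at hE1
  have he0 : 0 < e := by linarith
  have hc0 : 0 ≤ g / e := by positivity
  have hc1 : g / e ≤ 1 := by
    rw [div_le_one he0]
    linarith
  have h1 : ((uT B C E g).card : ℝ) ≤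
      ∑ f ∈ Fintype.piFinset (fun _ : Fin n => E), ((uBad B C f (g / E.card)).card : ℝ) := by
    have := Finset.card_biUnion_le (s := Fintype.piFinset (fun _ : Fin n => E))
      (t := fun f => uBad B C f (g / E.card))
    exact_mod_cast this
  have h2 : ∀ f ∈ Fintype.piFinset (fun _ : Fin n => E),
      ((uBad B C f (g / E.card)).card : ℝ) ≤ 2 ^ n * (g / e) ^ (n - 2 * B.card) * N := by
    intro f hf
    rw [Fintype.mem_piFinset] at hf
    rw [hN, ← he]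
    refine one_pattern B C hCB f ?_ (g / e) hc0 hc1 (uBad B C f (g / e)) ?_
    · intro i
      obtain ⟨ha, hb⟩ := hEY (f i) (hf i)
      exact ⟨(ha.trans hYC).trans hCB, (hb.trans hYC).trans hCB⟩
    · intro ω hω
      exact (Finset.mem_filter.mp hω).2
  have h3 := Finset.sum_le_card_nsmul _ _ _ h2
  have h4 : (Fintype.piFinset (fun _ : Fin n => E)).card = E.card ^ n := by
    rw [Fintype.card_piFinset]
    simp
  rw [h4, nsmul_eq_mul] at h3
  push_cast at h3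
  rw [← he] at h3
  have h5 : e ^ n * (2 ^ n * (g / e) ^ (n - 2 * B.card) * N) =
      2 ^ n * g ^ n * (e / g) ^ (2 * B.card) * N := by
    have h6 : n = (n - 2 * B.card) + 2 * B.card := by omega
    obtain ⟨a, ha⟩ : ∃ a : ℕ, a = n - 2 * B.card := ⟨_, rfl⟩
    obtain ⟨b, hb⟩ : ∃ b : ℕ, b = 2 * B.card := ⟨_, rfl⟩
    rw [← ha, ← hb] at h6
    rw [← ha, ← hb]
    have h7 : e ^ n = e ^ a * e ^ b := by rw [h6, pow_add]
    have h8 : g ^ n = g ^ a * g ^ b := by rw [h6, pow_add]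
    rw [h7, h8, div_pow, div_pow]
    have hea : e ^ a ≠ 0 := by positivity
    have hgb : g ^ b ≠ 0 := by positivity
    field_simp
  rw [h5] at h3
  rw [← he] at h1
  rw [← hN, ← he]
  exact le_trans h1 h3

private theorem uni_zero_mem {n : ℕ} (Y : Finset (Fin n)) (v : Fin n → ℝ) (θ : ℝ) (hθ : 0 ≤ θ) :
    (0 : ℝ) ∈ Nn Y v θ := by
  unfold Nn
  refine Finset.mem_filter.mpr ⟨Finset.mem_image.mpr ⟨(∅, ∅), ?_, by simp⟩, ?_⟩
  · simp
  · have h1 : kap Y v = D Y v 0 := rfl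
    have h2 : 0 ≤ D Y v 0 := by
      unfold D
      positivity
    rw [h1]
    nlinarith

open Classical in
theorem union_bound {n : ℕ} (t g M : ℝ) (ht0 : 0 ≤ t) (ht1 : t < 1) (hg0 : 0 < g) (hg1 : g ≤ 1)
    (hM : 0 ≤ M) :
    ((univ.filter (fun ω : Sym2 (Fin n) → Bool => ∃ (v : Fin n → ℝ) (B C Y : Finset (Fin n))
      (θ c₀ : ℝ), (∀ i, row ω i v = 0) ∧ Y ⊆ C ∧ C ⊆ B ∧ 2 * B.card ≤ n ∧
      (θ = 1 / 2 ∨ θ = t) ∧ 0 < c₀ ∧
      (∀ x : ℝ, (cnt C v x : ℝ) ≤ 2 ^ C.card * c₀) ∧ (∀ i ∉ B, v i ∈ Nn Y v θ) ∧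
      ((Nn Y v θ).card : ℝ) * c₀ ≤ g ∧
      (1 / c₀) ^ (2 * B.card) * (16 ^ Y.card) ^ Y.card ≤ M)).card : ℝ) ≤
      2 * 16 ^ n * g ^ n * M * Fintype.card (Sym2 (Fin n) → Bool) := by
  classical
  obtain ⟨N, hN⟩ : ∃ N : ℝ, N = (Fintype.card (Sym2 (Fin n) → Bool) : ℝ) := ⟨_, rfl⟩
  have hN0 : 0 ≤ N := by rw [hN]; positivity
  obtain ⟨th, hth⟩ : ∃ th : Bool → ℝ, th = fun b => if b then 1 / 2 else t := ⟨_, rfl⟩
  have hth1 : ∀ b, th b < 1 := by
    intro b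
    rw [hth]
    cases b
    · simpa using ht1
    · norm_num
  have hth0 : ∀ b, 0 ≤ th b := by
    intro b
    rw [hth]
    cases b
    · simpa using ht0
    · norm_num
  have hex := fun (Y : Finset (Fin n)) (b : Bool) => exists_types Y (th b) (hth1 b)
  choose EE hE1 hE2 hE3 using hex
  obtain ⟨Es, hEs⟩ : ∃ Es : (Finset (Fin n) × Finset (Fin n) × Finset (Fin n) × Bool) →
      Finset (Finset (Finset (Fin n) × Finset (Fin n))), Es = fun q =>
        (EE q.2.2.1 q.2.2.2).filter (fun E => E.Nonempty ∧ q.2.2.1 ⊆ q.2.1 ∧ q.2.1 ⊆ q.1 ∧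
          2 * q.1.card ≤ n ∧
          ((E.card : ℝ) / g) ^ (2 * q.1.card) * (16 ^ q.2.2.1.card) ^ q.2.2.1.card ≤ M) := ⟨_, rfl⟩
  have hmem : ∀ B C Y b E, E ∈ Es (B, C, Y, b) ↔ (E ∈ EE Y b ∧ E.Nonempty ∧ Y ⊆ C ∧ C ⊆ B ∧
      2 * B.card ≤ n ∧ ((E.card : ℝ) / g) ^ (2 * B.card) * (16 ^ Y.card) ^ Y.card ≤ M) := by
    intro B C Y b E
    rw [hEs]
    exact Finset.mem_filter
  -- the covering
  have hcov : (univ.filter (fun ω : Sym2 (Fin n) → Bool => ∃ (v : Fin n → ℝ)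
      (B C Y : Finset (Fin n)) (θ c₀ : ℝ), (∀ i, row ω i v = 0) ∧ Y ⊆ C ∧ C ⊆ B ∧
      2 * B.card ≤ n ∧ (θ = 1 / 2 ∨ θ = t) ∧ 0 < c₀ ∧
      (∀ x : ℝ, (cnt C v x : ℝ) ≤ 2 ^ C.card * c₀) ∧ (∀ i ∉ B, v i ∈ Nn Y v θ) ∧
      ((Nn Y v θ).card : ℝ) * c₀ ≤ g ∧
      (1 / c₀) ^ (2 * B.card) * (16 ^ Y.card) ^ Y.card ≤ M)) ⊆
      (univ : Finset (Finset (Fin n) × Finset (Fin n) × Finset (Fin n) × Bool)).biUnion
        (fun q => (Es q).biUnion (fun E => uT q.1 q.2.1 E g)) := by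
    intro ω hω
    obtain ⟨-, v, B, C, Y, θ, c₀, hrow, hYC, hCB, hB, hθ, hc, hcnt, hN', hNc, hM'⟩ :=
      Finset.mem_filter.mp hω
    obtain ⟨b, hb⟩ : ∃ b, θ = th b := by
      rcases hθ with h | h
      · exact ⟨true, by rw [hth, h]; simp⟩
      · exact ⟨false, by rw [hth, h]; simp⟩
    subst hb
    obtain ⟨E, hEm, hEc, hEx⟩ := hE3 Y b v
    obtain ⟨p0, hp0, -⟩ := hEx 0 (uni_zero_mem Y v _ (hth0 b))
    have hEpos : (1 : ℝ) ≤ (E.card : ℝ) := by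
      exact_mod_cast Finset.card_pos.mpr ⟨p0, hp0⟩
    have hEc' : (E.card : ℝ) ≤ ((Nn Y v (th b)).card : ℝ) := by exact_mod_cast hEc
    have hcg : (E.card : ℝ) * c₀ ≤ g :=
      le_trans (mul_le_mul_of_nonneg_right hEc' hc.le) hNc
    have hdiv : (E.card : ℝ) / g ≤ 1 / c₀ := by
      rw [div_le_div_iff₀ hg0 hc]
      linarith
    have hcond : ((E.card : ℝ) / g) ^ (2 * B.card) * (16 ^ Y.card) ^ Y.card ≤ M := by
      refine le_trans (mul_le_mul_of_nonneg_right ?_ (by positivity)) hM'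
      exact pow_le_pow_left₀ (by positivity) hdiv _
    refine Finset.mem_biUnion.mpr ⟨(B, C, Y, b), Finset.mem_univ _, ?_⟩
    refine Finset.mem_biUnion.mpr ⟨E, (hmem B C Y b E).mpr
      ⟨hEm, ⟨p0, hp0⟩, hYC, hCB, hB, hcond⟩, ?_⟩
    have hf : ∀ i, ∃ p ∈ E, i ∉ B → v i = ∑ l ∈ p.1, v l - ∑ l ∈ p.2, v l := by
      intro i
      by_cases hi : i ∈ B
      · exact ⟨p0, hp0, fun h => absurd hi h⟩
      · obtain ⟨p, hp, hpe⟩ := hEx (v i) (hN' i hi)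
        exact ⟨p, hp, fun _ => hpe.symm⟩
    choose f hfE hfv using hf
    refine Finset.mem_biUnion.mpr ⟨f, Fintype.mem_piFinset.mpr hfE, ?_⟩
    refine Finset.mem_filter.mpr ⟨Finset.mem_univ _, v, hfv, ?_, hrow⟩
    intro x
    refine le_trans (hcnt x) ?_
    apply mul_le_mul_of_nonneg_left _ (by positivity)
    rw [le_div_iff₀ (by linarith)]
    linarith
  -- the counting
  have hcount1 : ∀ q : Finset (Fin n) × Finset (Fin n) × Finset (Fin n) × Bool,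
      (((Es q).biUnion (fun E => uT q.1 q.2.1 E g)).card : ℝ) ≤ 2 ^ n * g ^ n * M * N := by
    rintro ⟨B, C, Y, b⟩
    obtain ⟨y, hy⟩ : ∃ y : ℝ, y = (16 ^ Y.card) ^ Y.card := ⟨_, rfl⟩
    have hy0 : 0 < y := by rw [hy]; positivity
    have h1 : (((Es (B, C, Y, b)).biUnion (fun E => uT B C E g)).card : ℝ) ≤
        ∑ E ∈ Es (B, C, Y, b), ((uT B C E g).card : ℝ) := by
      have := Finset.card_biUnion_le (s := Es (B, C, Y, b)) (t := fun E => uT B C E g)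
      exact_mod_cast this
    have h2 : ∀ E ∈ Es (B, C, Y, b), ((uT B C E g).card : ℝ) ≤ 2 ^ n * g ^ n * N * (M / y) := by
      intro E hE
      obtain ⟨hEm, hEn, hYC, hCB, hB, hcond⟩ := (hmem B C Y b E).mp hE
      have h3 := uT_card B C Y hYC hCB hB E hEn (hE2 Y b E hEm) g hg0 hg1
      rw [← hN] at h3
      rw [← hy] at hcond
      have h4 : ((E.card : ℝ) / g) ^ (2 * B.card) ≤ M / y := by
        rw [le_div_iff₀ hy0]
        exact hcond
      have h5 : 0 ≤ 2 ^ n * g ^ n * N := by positivity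
      calc ((uT B C E g).card : ℝ) ≤ 2 ^ n * g ^ n * ((E.card : ℝ) / g) ^ (2 * B.card) * N := h3
        _ = 2 ^ n * g ^ n * N * ((E.card : ℝ) / g) ^ (2 * B.card) := by ring
        _ ≤ 2 ^ n * g ^ n * N * (M / y) := mul_le_mul_of_nonneg_left h4 h5
    have h3 := Finset.sum_le_card_nsmul _ _ _ h2
    rw [nsmul_eq_mul] at h3
    have h4 : ((Es (B, C, Y, b)).card : ℝ) ≤ y := by
      have h5 : (Es (B, C, Y, b)).card ≤ (EE Y b).card := by
        apply Finset.card_le_card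
        intro E hE
        exact ((hmem B C Y b E).mp hE).1
      have h6 : ((EE Y b).card : ℝ) ≤ y := by
        rw [hy]
        exact_mod_cast hE1 Y b
      exact le_trans (by exact_mod_cast h5) h6
    have h5 : 0 ≤ 2 ^ n * g ^ n * N * (M / y) := by positivity
    calc (((Es (B, C, Y, b)).biUnion (fun E => uT B C E g)).card : ℝ)
        ≤ ((Es (B, C, Y, b)).card : ℝ) * (2 ^ n * g ^ n * N * (M / y)) := le_trans h1 h3
      _ ≤ y * (2 ^ n * g ^ n * N * (M / y)) := mul_le_mul_of_nonneg_right h4 h5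
      _ = 2 ^ n * g ^ n * M * N := by field_simp
  have h1 : (((univ : Finset (Finset (Fin n) × Finset (Fin n) × Finset (Fin n) × Bool)).biUnion
        (fun q => (Es q).biUnion (fun E => uT q.1 q.2.1 E g))).card : ℝ) ≤
      ∑ q : Finset (Fin n) × Finset (Fin n) × Finset (Fin n) × Bool,
        (((Es q).biUnion (fun E => uT q.1 q.2.1 E g)).card : ℝ) := by
    have := Finset.card_biUnion_le
      (s := (univ : Finset (Finset (Fin n) × Finset (Fin n) × Finset (Fin n) × Bool)))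
      (t := fun q => (Es q).biUnion (fun E => uT q.1 q.2.1 E g))
    exact_mod_cast this
  have h2 := Finset.sum_le_card_nsmul (univ : Finset (Finset (Fin n) × Finset (Fin n) ×
    Finset (Fin n) × Bool)) _ _ (fun q _ => hcount1 q)
  rw [nsmul_eq_mul] at h2
  have h3 : ((univ : Finset (Finset (Fin n) × Finset (Fin n) × Finset (Fin n) × Bool)).card : ℝ) =
      2 * 8 ^ n := by
    rw [Finset.card_univ]
    simp only [Fintype.card_prod, Fintype.card_finset, Fintype.card_fin, Fintype.card_bool]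
    push_cast
    have : (8 : ℝ) ^ n = 2 ^ n * 2 ^ n * 2 ^ n := by
      rw [← mul_pow, ← mul_pow]; norm_num
    rw [this]
    ring
  rw [h3] at h2
  have h4 : (((univ.filter (fun ω : Sym2 (Fin n) → Bool => ∃ (v : Fin n → ℝ)
      (B C Y : Finset (Fin n)) (θ c₀ : ℝ), (∀ i, row ω i v = 0) ∧ Y ⊆ C ∧ C ⊆ B ∧
      2 * B.card ≤ n ∧ (θ = 1 / 2 ∨ θ = t) ∧ 0 < c₀ ∧
      (∀ x : ℝ, (cnt C v x : ℝ) ≤ 2 ^ C.card * c₀) ∧ (∀ i ∉ B, v i ∈ Nn Y v θ) ∧
      ((Nn Y v θ).card : ℝ) * c₀ ≤ g ∧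
      (1 / c₀) ^ (2 * B.card) * (16 ^ Y.card) ^ Y.card ≤ M)).card : ℕ) : ℝ) ≤
      (((univ : Finset (Finset (Fin n) × Finset (Fin n) × Finset (Fin n) × Bool)).biUnion
        (fun q => (Es q).biUnion (fun E => uT q.1 q.2.1 E g))).card : ℝ) := by
    exact_mod_cast Finset.card_le_card hcov
  refine le_trans h4 (le_trans h1 (le_trans h2 (le_of_eq ?_)))
  rw [← hN]
  have : (16 : ℝ) ^ n = 8 ^ n * 2 ^ n := by
    rw [← mul_pow]; norm_num
  rw [this]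
  ring

end SingG.Conc
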