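import Pool.Agent.Lib.MP_686cbb_pr.S.Str
import Pool.Agent.Lib.MP_686cbb_pr.S.Uni
import Pool.Agent.Lib.MP_686cbb_pr.S.Num1
import Pool.Agent.Lib.MP_686cbb_pr.S.Num2

/-!
# Assembly, first part (module Fin1)

PROOF. For large `n` let `ω` be in the set, with `v`, `S`, `R`. Put
`κ₀ = exp(-2R)`; `kap S v ≥ (cnt S v x / 2^|S|)^2 ≥ exp(-2R)` by `cnt_sq_le`. Apply `structure_thm`
with `m₀ = ⌊8R⌋ + 1`, `r = rr n`, `k = qq n`, `t = tt n`, `γ = 1/n`; `|image v| ≥ 3n/4` and `num_two`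
(with `x = n - |S|`) give its hypothesis. With `B = C ∪ Sᶜ` the data satisfy the conditions of
`union_bound` with `g = 8 / qq n` and `M = exp(n log n / 12)` by `num_three`
(`(1/c₀) ≤ exp(2R)`, `|B| ≤ 2(m₀ + r) + x`, `1 ≤ exp(2R)`). Finish by `num_four`.
-/

namespace SingG.Conc

open Finset Filter

/-- After deleting `n - |S|` coordinates the vector has concentration at least `exp(-R)`, where
`R ≥ log n` and `R (R + n - |S|) ≤ n log n / 10^4`. -/
def ConcV {n : ℕ} (v : Fin n → ℝ) : Prop :=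
  ∃ (S : Finset (Fin n)) (R x : ℝ), Real.log n ≤ R ∧
    R * (R + (n - S.card)) ≤ n * Real.log n / 10 ^ 4 ∧
    2 ^ S.card * Real.exp (-R) ≤ ((S.powerset.filter (fun a => ∑ i ∈ a, v i = x)).card : ℝ)

open Classical in
theorem union_fin : ∀ᶠ n : ℕ in atTop,
    ((univ.filter (fun ω : Sym2 (Fin n) → Bool => ∃ v : Fin n → ℝ, v ≠ 0 ∧
      (∀ i, row ω i v = 0) ∧ ConcV v ∧ (3 / 4 : ℝ) * n ≤ ((univ.image v).card : ℝ))).card : ℝ) ≤
      (1 / 4 : ℝ) ^ n * Fintype.card (Sym2 (Fin n) → Bool) := by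
  filter_upwards [num_one, num_two, num_three, num_four, eventually_ge_atTop 1] with
    n h1 h2 h3 h4 hn
  obtain ⟨hq1, ht0, ht1, hkt, hγ, hg, hg1⟩ := h1
  have hnR : (1 : ℝ) ≤ n := by exact_mod_cast hn
  have hqR : (1 : ℝ) ≤ (qq n : ℝ) := by exact_mod_cast hq1
  have hU := union_bound (n := n) (tt n) (8 / (qq n : ℝ)) (Real.exp (n * Real.log n / 12)) ht0.le
    (by linarith) (by positivity) hg1 (Real.exp_pos _).le
  refine le_trans ?_ (hU.trans (mul_le_mul_of_nonneg_right h4 (by positivity)))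
  rw [Nat.cast_le]
  apply card_le_card
  intro ω hω
  obtain ⟨v, _, hker, ⟨S, R, x, hR, hRx, hcnt⟩, hd⟩ := (mem_filter.1 hω).2
  have hR0 : 0 ≤ R := (Real.log_nonneg hnR).trans hR
  have hSn : S.card ≤ n := by
    have := card_le_univ S
    rwa [Fintype.card_fin] at this
  have hxn : ((n - S.card : ℕ) : ℝ) = (n : ℝ) - S.card := by
    rw [Nat.cast_sub hSn]
  rw [← hxn] at hRx
  have hκ : Real.exp (-(2 * R)) ≤ kap S v := by
    refine le_trans ?_ (cnt_sq_le S v x)
    have e1 : Real.exp (-(2 * R)) = Real.exp (-R) ^ 2 := by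
      rw [← Real.exp_nat_mul]
      congr 1
      push_cast
      ring
    rw [e1]
    apply pow_le_pow_left₀ (Real.exp_pos _).le
    rw [le_div_iff₀ (by positivity), mul_comm]
    exact hcnt
  obtain ⟨h2a, h2b⟩ := h2 R (n - S.card) hR hRx
  obtain ⟨C, Y, θ, c₀, hYC, hCS, hCc, hYc, hθ, hκc, hc, hN, hNg⟩ := structure_thm hn v S
    (Real.exp (-(2 * R))) (Real.exp_pos _) hκ (⌊8 * R⌋₊ + 1) (rr n) (qq n) (num_m₀ R hR0) hq1
    (tt n) ht0 ht1 hkt (1 / (n : ℝ)) (by positivity) (by rw [div_le_one (by linarith)]; exact hnR)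
    hγ (by
      rw [← hxn]
      exact h2a.trans hd)
  have hc0 : 0 < c₀ := (Real.exp_pos _).trans_le hκc
  have hB : (C ∪ (univ \ S)).card ≤ 2 * (⌊8 * R⌋₊ + 1 + rr n) + (n - S.card) := by
    refine (card_union_le _ _).trans ?_
    apply add_le_add hCc
    rw [card_sdiff_of_subset (subset_univ _), card_univ, Fintype.card_fin]
  refine mem_filter.2 ⟨mem_univ _, v, C ∪ (univ \ S), C, Y, θ, c₀, hker, hYC, subset_union_left,
    ?_, hθ, hc0, hc, ?_, hNg.trans hg, ?_⟩
  · omega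
  · intro i hi
    apply hN
    have hi2 : i ∈ S := by
      by_contra h
      exact hi (mem_union_right _ (mem_sdiff.2 ⟨mem_univ i, h⟩))
    exact mem_sdiff.2 ⟨hi2, fun h => hi (mem_union_left _ h)⟩
  · refine le_trans ?_ (h3 R (n - S.card) hR hRx)
    have hE1 : 1 ≤ Real.exp (2 * R) := Real.one_le_exp (by linarith)
    have hinv : 1 / c₀ ≤ Real.exp (2 * R) := by
      rw [one_div, ← inv_inv (Real.exp (2 * R)), ← Real.exp_neg]
      exact inv_anti₀ (Real.exp_pos _) hκc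
    apply mul_le_mul
    · calc (1 / c₀) ^ (2 * (C ∪ (univ \ S)).card)
          ≤ Real.exp (2 * R) ^ (2 * (C ∪ (univ \ S)).card) :=
            pow_le_pow_left₀ (by positivity) hinv _
        _ ≤ _ := pow_le_pow_right₀ hE1 (by omega)
    · calc ((16 : ℝ) ^ Y.card) ^ Y.card
          ≤ (16 ^ (⌊8 * R⌋₊ + 1 + rr n)) ^ Y.card := by
            apply pow_le_pow_left₀ (by positivity)
            exact pow_le_pow_right₀ (by norm_num) hYc
        _ ≤ _ := by
            apply pow_le_pow_right₀ _ hYc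
            apply one_le_pow₀
            norm_num
    · positivity
    · positivity

end SingG.Conc
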