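import Pool.Agent.Lib.MP_686cbb_pr.Sharp
import Pool.Agent.Lib.MP_686cbb_pr.S.Fin1

/-!
# Assembly, second part (module Fin2)

PROOF. `StrG s G` with `s = n - CC n / log n` holds if `Structured s G`, and it implies
`Structured s G` or the property of `union_fin` (if `|absv v| > s` then
`|image v| ≥ |absv v| ≥ 3n/4` for large `n`). So the two probabilities differ by at most `(1/4)^n` for
large `n` (`transfer` with `c = (1/4)^n`), and `sharp` gives the claim; small `n` are absorbed in the
constant as in the proof of `sharp`.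
-/

namespace SingG.Conc

open Finset Filter

open Classical in
/-- Kernel vector with few distinct absolute values or large concentration. -/
def StrG {n : ℕ} (s : ℝ) (G : SimpleGraph (Fin n)) : Prop :=
  ∃ v : Fin n → ℝ, v ≠ 0 ∧ (G.adjMatrix ℝ).mulVec v = 0 ∧
    (((univ.image (fun i => |v i|)).card : ℝ) ≤ s ∨ ConcV v)

private theorem str_imp {n : ℕ} (s : ℝ) (G : SimpleGraph (Fin n)) (h : Structured s G) :
    StrG s G := by
  obtain ⟨v, hv, hk, hc⟩ := h
  exact ⟨v, hv, funext hk, Or.inl hc⟩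

open Classical in
private theorem upper_coded : ∀ᶠ n : ℕ in atTop,
    (Nat.card {G : SimpleGraph (Fin n) // StrG ((n : ℝ) - CC * n / Real.log n) G} : ℝ) ≤
      Nat.card {G : SimpleGraph (Fin n) // Structured ((n : ℝ) - CC * n / Real.log n) G} +
        (1 / 4 : ℝ) ^ n * Nat.card (SimpleGraph (Fin n)) := by
  have hlog : ∀ᶠ n : ℕ in atTop, 4 * CC ≤ Real.log n := by
    have := Real.tendsto_log_atTop.comp (tendsto_natCast_atTop_atTop (R := ℝ))
    exact this.eventually_ge_atTop _
  filter_upwards [hlog, eventually_gt_atTop 4, union_fin] with n hn hn4 hU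
  have hCC : 0 < CC := by
    unfold CC
    norm_num
  have hL : 0 < Real.log n := by linarith
  have hn0 : (0 : ℝ) < n := by
    have : 0 < n := by omega
    exact_mod_cast this
  have hs : (3 / 4 : ℝ) * n ≤ (n : ℝ) - CC * n / Real.log n := by
    have h4 : CC * n / Real.log n ≤ n / 4 := by
      rw [div_le_iff₀ hL]
      nlinarith
    linarith
  have ht := transfer (n := n) (fun G => ∃ v : Fin n → ℝ, v ≠ 0 ∧
      (G.adjMatrix ℝ).mulVec v = 0 ∧ ConcV v ∧ (3 / 4 : ℝ) * n ≤ ((univ.image v).card : ℝ))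
    ((1 / 4 : ℝ) ^ n)
    (univ.filter (fun ω : Sym2 (Fin n) → Bool => ∃ v : Fin n → ℝ, v ≠ 0 ∧
      (∀ i, row ω i v = 0) ∧ ConcV v ∧ (3 / 4 : ℝ) * n ≤ ((univ.image v).card : ℝ))) (by
        intro ω hω
        obtain ⟨v, hv, hk, hc, hi⟩ := hω
        rw [Finset.mem_filter]
        exact ⟨Finset.mem_univ _, v, hv, (row_eq ω v).1 hk, hc, hi⟩) hU
  have h4 : Nat.card {G : SimpleGraph (Fin n) // StrG ((n : ℝ) - CC * n / Real.log n) G} ≤
      Nat.card {G : SimpleGraph (Fin n) // Structured ((n : ℝ) - CC * n / Real.log n) G} +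
      Nat.card {G : SimpleGraph (Fin n) // ∃ v : Fin n → ℝ, v ≠ 0 ∧
        (G.adjMatrix ℝ).mulVec v = 0 ∧ ConcV v ∧
          (3 / 4 : ℝ) * n ≤ ((univ.image v).card : ℝ)} := by
    simp only [Nat.card_eq_fintype_card, Fintype.card_subtype]
    refine le_trans (Finset.card_le_card ?_) (Finset.card_union_le _ _)
    intro G hG
    rw [Finset.mem_union, Finset.mem_filter, Finset.mem_filter]
    obtain ⟨v, hv, hk, hc⟩ := (Finset.mem_filter.1 hG).2
    by_cases h1 : ((univ.image (fun i => |v i|)).card : ℝ) ≤ (n : ℝ) - CC * n / Real.log n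
    · exact Or.inl ⟨Finset.mem_univ _, v, hv, fun i => congrFun hk i, h1⟩
    · refine Or.inr ⟨Finset.mem_univ _, v, hv, hk, hc.resolve_left h1, ?_⟩
      have h2 : (univ.image (fun i => |v i|)).card ≤ (univ.image v).card := by
        have h3 : univ.image (fun i => |v i|) = (univ.image v).image (fun x => |x|) := by
          rw [Finset.image_image]
          rfl
        rw [h3]
        exact Finset.card_image_le
      have h2' : ((univ.image (fun i => |v i|)).card : ℝ) ≤ ((univ.image v).card : ℝ) := by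
        exact_mod_cast h2
      linarith [not_le.1 h1]
  have h4' : (Nat.card {G : SimpleGraph (Fin n) // StrG ((n : ℝ) - CC * n / Real.log n) G} : ℝ) ≤
      Nat.card {G : SimpleGraph (Fin n) // Structured ((n : ℝ) - CC * n / Real.log n) G} +
      Nat.card {G : SimpleGraph (Fin n) // ∃ v : Fin n → ℝ, v ≠ 0 ∧
        (G.adjMatrix ℝ).mulVec v = 0 ∧ ConcV v ∧
          (3 / 4 : ℝ) * n ≤ ((univ.image v).card : ℝ)} := by
    exact_mod_cast h4
  exact h4'.trans (add_le_add le_rfl ht)

theorem conc_sharp (ε : ℝ) (hε : 0 < ε) : ∃ K : ℝ, ∀ n : ℕ,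
    |(Nat.card {G : SimpleGraph (Fin n) // StrG ((n : ℝ) - CC * n / Real.log n) G} : ℝ) /
      Nat.card (SimpleGraph (Fin n)) - n * (n + 1) / 2 ^ n| ≤ K * (3 / 8 + ε) ^ n := by
  classical
  obtain ⟨K, hK⟩ := sharp ε hε
  obtain ⟨n1, hn1⟩ := Filter.eventually_atTop.1 upper_coded
  refine ⟨1 + |K| + 3 * (8 / 3) ^ n1, fun n => ?_⟩
  set P := (Nat.card {G : SimpleGraph (Fin n) //
    StrG ((n : ℝ) - CC * n / Real.log n) G} : ℝ) / Nat.card (SimpleGraph (Fin n)) with hP
  set P0 := (Nat.card {G : SimpleGraph (Fin n) //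
    Structured ((n : ℝ) - CC * n / Real.log n) G} : ℝ) / Nat.card (SimpleGraph (Fin n)) with hP0'
  have hpos := card_graph_pos (n := n)
  have hP0 : 0 ≤ P := by positivity
  have hP1 : P ≤ 1 := by
    rw [hP, div_le_one hpos]
    exact_mod_cast Finite.card_subtype_le _
  have hbase : (0 : ℝ) < 3 / 8 + ε := by positivity
  by_cases hn : n1 ≤ n
  · have h1 : P ≤ P0 + (1 / 4 : ℝ) ^ n := by
      rw [hP, div_le_iff₀ hpos, add_mul, hP0', div_mul_cancel₀ _ hpos.ne']
      exact hn1 n hn
    have h2 : P0 ≤ P := by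
      rw [hP, hP0']
      refine div_le_div_of_nonneg_right ?_ hpos.le
      have h3 : Nat.card {G : SimpleGraph (Fin n) //
          Structured ((n : ℝ) - CC * n / Real.log n) G} ≤
          Nat.card {G : SimpleGraph (Fin n) // StrG ((n : ℝ) - CC * n / Real.log n) G} := by
        simp only [Nat.card_eq_fintype_card, Fintype.card_subtype]
        refine Finset.card_le_card ?_
        intro G hG
        rw [Finset.mem_filter] at hG ⊢
        exact ⟨hG.1, str_imp _ _ hG.2⟩
      exact_mod_cast h3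
    have h3 : (1 / 4 : ℝ) ^ n ≤ (3 / 8 + ε) ^ n :=
      pow_le_pow_left₀ (by norm_num) (by linarith) _
    have h4 := hK n
    rw [← hP0'] at h4
    have hq : 0 < (3 / 8 + ε) ^ n := by positivity
    have h8 : K * (3 / 8 + ε) ^ n ≤ |K| * (3 / 8 + ε) ^ n :=
      mul_le_mul_of_nonneg_right (le_abs_self K) hq.le
    have h10 : 0 ≤ 3 * (8 / 3) ^ n1 * (3 / 8 + ε) ^ n := by positivity
    rw [abs_le] at h4 ⊢
    obtain ⟨h5, h6⟩ := h4
    constructor
    · nlinarith
    · nlinarith
  · have h1 : (n : ℝ) * (n + 1) / 2 ^ n ≤ 2 := by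
      rw [div_le_iff₀ (by positivity)]
      have : ∀ m : ℕ, m * (m + 1) ≤ 2 * 2 ^ m := by
        intro m
        induction m with
        | zero => norm_num
        | succ m ih =>
          by_cases hm : m ≤ 2
          · interval_cases m <;> norm_num
          · have : (m + 1) * (m + 1 + 1) ≤ 2 * (m * (m + 1)) := by
              have : 3 ≤ m := by omega
              nlinarith
            calc (m + 1) * (m + 1 + 1) ≤ 2 * (m * (m + 1)) := this
              _ ≤ 2 * (2 * 2 ^ m) := Nat.mul_le_mul_left _ ih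
              _ = 2 * 2 ^ (m + 1) := by ring
      exact_mod_cast this n
    have h2 : (0 : ℝ) ≤ n * (n + 1) / 2 ^ n := by positivity
    have h3 : |P - n * (n + 1) / 2 ^ n| ≤ 3 := by
      rw [abs_le]
      constructor <;> linarith
    refine h3.trans ?_
    have h4 : (1 : ℝ) ≤ (8 / 3) ^ n1 * (3 / 8 + ε) ^ n := by
      have h5 : (1 : ℝ) ≤ (8 / 3) ^ n * (3 / 8 + ε) ^ n := by
        rw [← mul_pow]
        apply one_le_pow₀
        linarith
      have h6 : (8 / 3 : ℝ) ^ n ≤ (8 / 3) ^ n1 := pow_le_pow_right₀ (by norm_num) (by omega)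
      exact h5.trans (mul_le_mul_of_nonneg_right h6 (by positivity))
    have h7 : 0 ≤ (1 + |K|) * (3 / 8 + ε) ^ n := by positivity
    nlinarith

end SingG.Conc
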