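import Pool.Agent.Lib.MP_686cbb_pr.S.Fin2

/-!
# Kernel vectors with large concentration (module Fin3)

The event of a concentrated kernel vector lies between `Twins` and `StrG`.
-/

namespace SingG.Conc

open Finset Filter

variable {n : ℕ}

open Classical in
/-- Kernel vector with large concentration. -/
def CncG (G : SimpleGraph (Fin n)) : Prop :=
  ∃ v : Fin n → ℝ, v ≠ 0 ∧ (G.adjMatrix ℝ).mulVec v = 0 ∧ ConcV v

private theorem twins_vec (ω : Sym2 (Fin n) → Bool) (h : Twins (gr ω)) :
    ∃ v : Fin n → ℝ, v ≠ 0 ∧ (∀ i, row ω i v = 0) ∧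
      ∃ a b : Fin n, ∀ i, i ≠ a → i ≠ b → v i = 0 := by
  classical
  rcases h with ⟨i0, hiso⟩ | ⟨a, b, hab, htw⟩
  · refine ⟨Pi.single i0 1, ?_, ?_, i0, i0, fun i h _ => by simp [h]⟩
    · intro h
      have := congrFun h i0
      simp at this
    · intro i
      unfold row
      apply Finset.sum_eq_zero
      intro l _
      by_cases hl : l = i0
      · rw [hl]
        have : ent ω i i0 = 0 := by
          rcases ent_zero_or_one ω i i0 with h | h
          · exact h
          · exact absurd ((ent_one_iff ω i i0).1 h).symm (hiso i)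
        rw [this, zero_mul]
      · simp [hl]
  · set v : Fin n → ℝ := fun i => if i = a then 1 else if i = b then -1 else 0 with hv
    refine ⟨v, ?_, ?_, a, b, fun i h1 h2 => by simp [hv, h1, h2]⟩
    · intro h
      have := congrFun h a
      simp [hv] at this
    · intro i
      have h1 : row ω i v = ent ω i a - ent ω i b := by
        unfold row
        have h2 : ∀ l, ent ω i l * v l =
            (if l = a then ent ω i a else 0) + (if l = b then -ent ω i b else 0) := by
          intro l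
          by_cases h3 : l = a
          · subst h3
            simp [hv, hab]
          · by_cases h4 : l = b
            · subst h4
              simp [hv, h3]
            · simp [hv, h3, h4]
        rw [Finset.sum_congr rfl (fun l _ => h2 l), Finset.sum_add_distrib]
        simp
        ring
      rw [h1]
      have h5 := htw i
      rw [(gr ω).adj_comm a i, (gr ω).adj_comm b i, ← ent_one_iff, ← ent_one_iff] at h5
      rcases ent_zero_or_one ω i a with h6 | h6 <;> rcases ent_zero_or_one ω i b with h7 | h7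
      · rw [h6, h7, sub_zero]
      · exact absurd (h5.2 h7) (by rw [h6]; norm_num)
      · exact absurd (h5.1 h6) (by rw [h7]; norm_num)
      · rw [h6, h7, sub_self]

private theorem conc_supp : ∀ᶠ n : ℕ in atTop, ∀ v : Fin n → ℝ,
    (∃ a b : Fin n, ∀ i, i ≠ a → i ≠ b → v i = 0) → ConcV v := by
  have hlog : ∀ᶠ n : ℕ in atTop, Real.log n ≤ n / 10 ^ 4 := by
    have h1 := (Real.isLittleO_log_id_atTop.bound (c := 1 / 10 ^ 4) (by norm_num))
    have h2 := tendsto_natCast_atTop_atTop (R := ℝ) |>.eventually h1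
    filter_upwards [h2] with n hn
    simp only [id_eq, Real.norm_eq_abs] at hn
    rw [abs_of_nonneg (Nat.cast_nonneg n : (0 : ℝ) ≤ n)] at hn
    have := le_abs_self (Real.log n)
    linarith
  filter_upwards [hlog, eventually_ge_atTop 4] with n hn hn4 v hv
  obtain ⟨a, b, hab⟩ := hv
  have hn4' : (4 : ℝ) ≤ n := by exact_mod_cast hn4
  have hl0 : 0 ≤ Real.log n := Real.log_nonneg (by linarith)
  refine ⟨univ, Real.log n, 0, le_rfl, ?_, ?_⟩
  · rw [card_univ, Fintype.card_fin, sub_self, add_zero]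
    calc Real.log n * Real.log n ≤ (n / 10 ^ 4) * Real.log n :=
          mul_le_mul_of_nonneg_right hn hl0
      _ = _ := by ring
  · rw [card_univ, Fintype.card_fin, Real.exp_neg, Real.exp_log (by linarith)]
    have h1 : 2 ^ (n - 2) ≤ ((univ : Finset (Fin n)).powerset.filter
        (fun s => ∑ i ∈ s, v i = 0)).card := by
      have h2 : (univ \ {a, b} : Finset (Fin n)).powerset ⊆
          (univ : Finset (Fin n)).powerset.filter (fun s => ∑ i ∈ s, v i = 0) := by
        intro s hs
        refine mem_filter.2 ⟨mem_powerset.2 (subset_univ _), ?_⟩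
        apply sum_eq_zero
        intro i hi
        have h3 := mem_powerset.1 hs hi
        rw [Finset.mem_sdiff, mem_insert, mem_singleton] at h3
        push Not at h3
        exact hab i h3.2.1 h3.2.2
      refine le_trans ?_ (card_le_card h2)
      rw [card_powerset]
      apply Nat.pow_le_pow_right (by norm_num)
      rw [card_sdiff_of_subset (subset_univ _), card_univ, Fintype.card_fin]
      have := card_le_two (a := a) (b := b)
      omega
    have h2 : ((2 : ℝ) ^ (n - 2)) ≤ (((univ : Finset (Fin n)).powerset.filter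
        (fun s => ∑ i ∈ s, v i = 0)).card : ℝ) := by exact_mod_cast h1
    refine le_trans ?_ h2
    have h3 : (2 : ℝ) ^ n = 4 * 2 ^ (n - 2) := by
      rw [show (4 : ℝ) = 2 ^ 2 by norm_num, ← pow_add]
      congr 1
      omega
    rw [h3, ← div_eq_mul_inv, div_le_iff₀ (by linarith)]
    have : (0 : ℝ) < 2 ^ (n - 2) := by positivity
    nlinarith

theorem twins_conc : ∀ᶠ n : ℕ in atTop, ∀ ω : Sym2 (Fin n) → Bool, Twins (gr ω) →
    CncG (gr ω) := by
  filter_upwards [conc_supp] with n hn ω hω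
  obtain ⟨v, h1, h2, h3⟩ := twins_vec ω hω
  exact ⟨v, h1, (row_eq ω v).2 h2, hn v h3⟩

/-- The probability of a kernel vector with large concentration. -/
theorem conc_only (ε : ℝ) (hε : 0 < ε) : ∃ K : ℝ, ∀ n : ℕ,
    |(Nat.card {G : SimpleGraph (Fin n) // CncG G} : ℝ) /
      Nat.card (SimpleGraph (Fin n)) - n * (n + 1) / 2 ^ n| ≤ K * (3 / 8 + ε) ^ n := by
  classical
  obtain ⟨K, hK⟩ := conc_sharp ε hε
  have hpoly : Tendsto (fun n : ℕ => (n : ℝ) ^ 4 * (2 / 3 : ℝ) ^ n) atTop (nhds 0) :=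
    tendsto_pow_const_mul_const_pow_of_abs_lt_one 4 (by
      rw [abs_of_pos (by norm_num)]
      norm_num)
  have hev : ∀ᶠ n : ℕ in atTop, (n : ℝ) ^ 4 * (2 / 3 : ℝ) ^ n ≤ 1 :=
    (hpoly.eventually (gt_mem_nhds one_pos)).mono (fun n h => le_of_lt h)
  obtain ⟨n1, hn1⟩ := Filter.eventually_atTop.1
    (hev.and (twins_conc.and (eventually_ge_atTop 2)))
  refine ⟨8 + |K| + 3 * (8 / 3) ^ n1, fun n => ?_⟩
  set P := (Nat.card {G : SimpleGraph (Fin n) // CncG G} : ℝ) /
    Nat.card (SimpleGraph (Fin n)) with hP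
  have hpos := card_graph_pos (n := n)
  have hP0 : 0 ≤ P := by positivity
  have hbase : (0 : ℝ) < 3 / 8 + ε := by positivity
  have hq : 0 < (3 / 8 + ε) ^ n := by positivity
  have h8 : K * (3 / 8 + ε) ^ n ≤ |K| * (3 / 8 + ε) ^ n :=
    mul_le_mul_of_nonneg_right (le_abs_self K) hq.le
  have h9 : 0 ≤ |K| * (3 / 8 + ε) ^ n := by positivity
  have h10 : 0 ≤ 3 * (8 / 3) ^ n1 * (3 / 8 + ε) ^ n := by positivity
  have hhi : P ≤ n * (n + 1) / 2 ^ n + K * (3 / 8 + ε) ^ n := by
    have h1 := (abs_le.1 (hK n)).2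
    have h2 : P ≤ (Nat.card {G : SimpleGraph (Fin n) //
        StrG ((n : ℝ) - CC * n / Real.log n) G} : ℝ) / Nat.card (SimpleGraph (Fin n)) := by
      rw [hP]
      apply div_le_div_of_nonneg_right _ hpos.le
      rw [Nat.cast_le, Nat.card_eq_fintype_card, Nat.card_eq_fintype_card,
        Fintype.card_subtype, Fintype.card_subtype]
      apply card_le_card
      intro G hG
      obtain ⟨v, h3, h4, h5⟩ := (mem_filter.1 hG).2
      exact mem_filter.2 ⟨mem_univ _, v, h3, h4, Or.inr h5⟩
    linarith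
  by_cases hn : n1 ≤ n
  · obtain ⟨h1, h2, h3⟩ := hn1 n hn
    have htwlow := transfer_ge (n := n) (fun G => CncG G) _
      (Finset.univ.filter (fun ω : Sym2 (Fin n) → Bool => Twins (gr ω)))
      (fun ω hω => h2 ω (Finset.mem_filter.1 hω).2) (twins_lower' h3)
    have hlo : ((n : ℝ) ^ 2 + n - 8 * n ^ 4 / 2 ^ n) / 2 ^ n ≤ P := by
      rw [hP, le_div_iff₀ hpos]
      exact htwlow
    have h5 : 8 * (n : ℝ) ^ 4 / 2 ^ n / 2 ^ n ≤ 8 * (3 / 8 + ε) ^ n := by
      have e1 : 8 * (n : ℝ) ^ 4 / 2 ^ n / 2 ^ n = 8 * (n ^ 4 * (2 / 3) ^ n) * (3 / 8) ^ n := by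
        have : (1 : ℝ) / 2 ^ n / 2 ^ n = (2 / 3) ^ n * (3 / 8) ^ n := by
          rw [← mul_pow, div_div, ← mul_pow, one_div, ← inv_pow]
          norm_num
        calc 8 * (n : ℝ) ^ 4 / 2 ^ n / 2 ^ n = 8 * n ^ 4 * (1 / 2 ^ n / 2 ^ n) := by ring
          _ = _ := by rw [this]; ring
      rw [e1]
      have e2 : (3 / 8 : ℝ) ^ n ≤ (3 / 8 + ε) ^ n :=
        pow_le_pow_left₀ (by norm_num) (by linarith) _
      have e3 : 8 * ((n : ℝ) ^ 4 * (2 / 3) ^ n) ≤ 8 := by linarith
      exact mul_le_mul e3 e2 (by positivity) (by norm_num)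
    have h6 : (n : ℝ) * (n + 1) / 2 ^ n = ((n : ℝ) ^ 2 + n) / 2 ^ n := by ring
    have h7 : ((n : ℝ) ^ 2 + n - 8 * n ^ 4 / 2 ^ n) / 2 ^ n =
        ((n : ℝ) ^ 2 + n) / 2 ^ n - 8 * n ^ 4 / 2 ^ n / 2 ^ n := by ring
    rw [abs_le]
    constructor
    · rw [h6]
      rw [h7] at hlo
      nlinarith
    · nlinarith
  · have h1 : (n : ℝ) * (n + 1) / 2 ^ n ≤ 2 := by
      rw [div_le_iff₀ (by positivity)]
      have : ∀ m : ℕ, m * (m + 1) ≤ 2 * 2 ^ m := by
        intro m
        induction m with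
        | zero => norm_num
        | succ m ih =>
          by_cases hm : m ≤ 2
          · interval_cases m <;> norm_num
          · have : (m + 1) * (m + 1 + 1) ≤ 2 * (m * (m + 1)) := by
              have : 3 ≤ m := by omega
              nlinarith
            calc (m + 1) * (m + 1 + 1) ≤ 2 * (m * (m + 1)) := this
              _ ≤ 2 * (2 * 2 ^ m) := Nat.mul_le_mul_left _ ih
              _ = 2 * 2 ^ (m + 1) := by ring
      exact_mod_cast this n
    have h2 : (0 : ℝ) ≤ n * (n + 1) / 2 ^ n := by positivity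
    have h4 : (1 : ℝ) ≤ (8 / 3) ^ n1 * (3 / 8 + ε) ^ n := by
      have h5 : (1 : ℝ) ≤ (8 / 3) ^ n * (3 / 8 + ε) ^ n := by
        rw [← mul_pow]
        apply one_le_pow₀
        linarith
      have h6 : (8 / 3 : ℝ) ^ n ≤ (8 / 3) ^ n1 := pow_le_pow_right₀ (by norm_num) (by omega)
      exact h5.trans (mul_le_mul_of_nonneg_right h6 (by positivity))
    have h11 : 0 ≤ 8 * (3 / 8 + ε) ^ n := by positivity
    rw [abs_le]
    constructor
    · nlinarith
    · nlinarith

end SingG.Conc
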