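import Pool.Agent.Lib.MP_686cbb_pr.S.PsdB

/-!
# The greedy lemma (module Grd)

PROOF. Induction on `r`. For `r = 0` take `Z = Y`. Given `Z` for `r`: if all `i ∈ S \ Z` satisfy
`(1 - t) κ(Z) ≤ D Z (v i)`, keep `Z`. Otherwise insert a violating `i`:
`κ(insert i Z) = (κ(Z) + D Z (v i)) / 2 ≤ (1 - t/2) κ(Z)`. If the previous `Z` was in the second
alternative we gain a factor; if it was in the first alternative there is no violating `i`.
-/

namespace SingG.Conc

open Finset

variable {ι : Type*} [DecidableEq ι]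

theorem greedy (v : ι → ℝ) (S Y : Finset ι) (hY : Y ⊆ S) (t : ℝ) (ht1 : t ≤ 1) (r : ℕ) :
    ∃ Z : Finset ι, Y ⊆ Z ∧ Z ⊆ S ∧ Z.card ≤ Y.card + r ∧
      ((∀ i ∈ S \ Z, (1 - t) * kap Z v ≤ D Z v (v i)) ∨
        kap Z v ≤ (1 - t / 2) ^ r * kap Y v) := by
  induction r with
  | zero =>
    refine ⟨Y, Finset.Subset.refl Y, hY, le_refl _, Or.inr ?_⟩
    rw [pow_zero, one_mul]
  | succ r ih =>
    obtain ⟨Z, hYZ, hZS, hc, hor⟩ := ih
    by_cases hall : ∀ i ∈ S \ Z, (1 - t) * kap Z v ≤ D Z v (v i)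
    · exact ⟨Z, hYZ, hZS, le_trans hc (by omega), Or.inl hall⟩
    · rcases hor with h | h
      · exact absurd h hall
      · push Not at hall
        obtain ⟨i, hi, hlt⟩ := hall
        rw [Finset.mem_sdiff] at hi
        refine ⟨insert i Z, hYZ.trans (Finset.subset_insert i Z),
          Finset.insert_subset hi.1 hZS, ?_, Or.inr ?_⟩
        · rw [Finset.card_insert_of_notMem hi.2]
          omega
        · rw [kap_insert hi.2, pow_succ]
          have h0 : 0 ≤ 1 - t / 2 := by linarith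
          have h1 : (kap Z v + D Z v (v i)) / 2 ≤ (1 - t / 2) * kap Z v := by nlinarith
          have h2 := mul_le_mul_of_nonneg_left h h0
          calc (kap Z v + D Z v (v i)) / 2 ≤ (1 - t / 2) * kap Z v := h1
            _ ≤ (1 - t / 2) * ((1 - t / 2) ^ r * kap Y v) := h2
            _ = (1 - t / 2) ^ r * (1 - t / 2) * kap Y v := by ring

end SingG.Conc
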