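import Pool.Agent.Lib.MP_686cbb_pr.S.Defs

/-!
# Positive definiteness (module PsdA)

PROOF. Write `s a = ∑ l ∈ a, v l`.
* General lemma: for a finite index set `P` and `c g : P → ℝ`,
  `0 ≤ ∑ p ∈ P, ∑ q ∈ P, if g p = g q then c p * c q else 0`
  (group by the value of `g`: it is `∑ z ∈ image g, (∑ p with g p = z, c p)^2`).
* With `P = Y.powerset × Fin 3`, `g (a, j) = x_j + s a`, `c (a, j) = c_j`, this gives for all reals
  `c_0, c_1, c_2` and points `x_0, x_1, x_2`: `0 ≤ ∑_{j,k} c_j c_k D Y v (x_j - x_k)`.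
* `D_le_kap`: points `0, x`, coefficients `1, -1`.  `D_neg`: swap the pair.
* `sum_D_le`: the filters for different `x` are disjoint subsets of a set with `4 ^ |Y|` elements.
* `sqrt_tri`: with `u = κ - D x`, `w = κ - D y`, `z = κ - D (x+y)` (all `≥ 0`) the form at the points
  `0, x, x+y` with coefficients `a, b - a, -b` equals `2 (a^2 u + b^2 w + a b (z - u - w))`,
  nonnegative for all `a, b`, so `(z - u - w)^2 ≤ 4 u w`, hence `z ≤ (√u + √w)^2`.
-/

namespace SingG.Conc

open Finset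

variable {ι : Type*} [DecidableEq ι]

private theorem psd {α : Type*} (P : Finset α) (c g : α → ℝ) :
    0 ≤ ∑ p ∈ P, ∑ q ∈ P, if g p = g q then c p * c q else 0 := by
  have h : ∑ p ∈ P, ∑ q ∈ P, (if g p = g q then c p * c q else 0) =
      ∑ z ∈ P.image g, (∑ p ∈ P, if g p = z then c p else 0) ^ 2 := by
    have h1 : ∀ z : ℝ, (∑ p ∈ P, if g p = z then c p else 0) ^ 2 =
        ∑ p ∈ P, ∑ q ∈ P, (if g p = z then c p else 0) * (if g q = z then c q else 0) := by
      intro z
      rw [sq, Finset.sum_mul_sum]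
    simp_rw [h1]
    symm
    rw [Finset.sum_comm]
    refine Finset.sum_congr rfl fun p hp => ?_
    rw [Finset.sum_comm]
    refine Finset.sum_congr rfl fun q _ => ?_
    have h2 : ∀ z ∈ P.image g, (if g p = z then c p else 0) * (if g q = z then c q else 0) =
        if g p = z then (if g p = g q then c p * c q else 0) else 0 := by
      intro z _
      by_cases h3 : g p = z
      · subst h3
        by_cases h4 : g p = g q
        · rw [if_pos rfl, if_pos h4.symm, if_pos rfl, if_pos h4]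
        · rw [if_pos rfl, if_neg (fun h => h4 h.symm), if_pos rfl, if_neg h4, mul_zero]
      · rw [if_neg h3, if_neg h3, zero_mul]
    rw [Finset.sum_congr rfl h2, Finset.sum_ite_eq, if_pos (Finset.mem_image_of_mem g hp)]
  rw [h]
  exact Finset.sum_nonneg fun z _ => sq_nonneg _

private theorem D_eq (Y : Finset ι) (v : ι → ℝ) (x : ℝ) :
    D Y v x = (∑ a ∈ Y.powerset, ∑ b ∈ Y.powerset,
      if ∑ l ∈ a, v l - ∑ l ∈ b, v l = x then (1 : ℝ) else 0) / 4 ^ Y.card := by
  unfold D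
  congr 1
  rw [Finset.card_filter, Finset.sum_product]
  push_cast
  rfl

private theorem psd3 (Y : Finset ι) (v : ι → ℝ) (xs cs : Fin 3 → ℝ) :
    0 ≤ ∑ j, ∑ k, cs j * cs k * D Y v (xs j - xs k) := by
  have h := psd (Y.powerset ×ˢ (Finset.univ : Finset (Fin 3))) (fun p => cs p.2)
    (fun p => xs p.2 + ∑ l ∈ p.1, v l)
  have h1 : ∑ j, ∑ k, cs j * cs k * D Y v (xs j - xs k) =
      (∑ p ∈ Y.powerset ×ˢ (Finset.univ : Finset (Fin 3)),
        ∑ q ∈ Y.powerset ×ˢ (Finset.univ : Finset (Fin 3)),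
          if xs p.2 + ∑ l ∈ p.1, v l = xs q.2 + ∑ l ∈ q.1, v l then cs p.2 * cs q.2 else 0) /
        4 ^ Y.card := by
    rw [Finset.sum_product_right, Finset.sum_comm, Finset.sum_div]
    refine Finset.sum_congr rfl fun k _ => ?_
    simp_rw [Finset.sum_product_right]
    rw [Finset.sum_comm, Finset.sum_div]
    refine Finset.sum_congr rfl fun j _ => ?_
    rw [D_eq, mul_div_assoc', Finset.mul_sum]
    congr 1
    refine Finset.sum_congr rfl fun a _ => ?_
    rw [Finset.mul_sum]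
    refine Finset.sum_congr rfl fun b _ => ?_
    have h2 : (∑ l ∈ a, v l - ∑ l ∈ b, v l = xs j - xs k) ↔
        (xs k + ∑ l ∈ a, v l = xs j + ∑ l ∈ b, v l) := by
      constructor <;> intro h <;> linarith
    by_cases h3 : xs k + ∑ l ∈ a, v l = xs j + ∑ l ∈ b, v l
    · rw [if_pos h3, if_pos (h2.2 h3)]
      ring
    · rw [if_neg h3, if_neg (fun h => h3 (h2.1 h))]
      ring
  rw [h1]
  exact div_nonneg h (by positivity)

theorem D_nonneg (Y : Finset ι) (v : ι → ℝ) (x : ℝ) : 0 ≤ D Y v x := by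
  unfold D
  positivity

theorem kap_pos (Y : Finset ι) (v : ι → ℝ) : 0 < kap Y v := by
  unfold kap D
  have h : 0 < ((Y.powerset ×ˢ Y.powerset).filter
      (fun p => ∑ l ∈ p.1, v l - ∑ l ∈ p.2, v l = 0)).card := by
    apply Finset.card_pos.2
    refine ⟨(∅, ∅), ?_⟩
    simp
  have h2 : (0 : ℝ) < ((Y.powerset ×ˢ Y.powerset).filter
      (fun p => ∑ l ∈ p.1, v l - ∑ l ∈ p.2, v l = 0)).card := by exact_mod_cast h
  positivity

theorem kap_empty (v : ι → ℝ) : kap ∅ v = 1 := by
  unfold kap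
  rw [D_eq, Finset.powerset_empty, Finset.sum_singleton, Finset.sum_singleton]
  rw [if_pos (by simp)]
  simp

theorem D_neg (Y : Finset ι) (v : ι → ℝ) (x : ℝ) : D Y v (-x) = D Y v x := by
  rw [D_eq, D_eq, Finset.sum_comm]
  congr 1
  refine Finset.sum_congr rfl fun a _ => Finset.sum_congr rfl fun b _ => ?_
  have h : (∑ l ∈ b, v l - ∑ l ∈ a, v l = -x) ↔ (∑ l ∈ a, v l - ∑ l ∈ b, v l = x) := by
    constructor <;> intro h <;> linarith
  by_cases h3 : ∑ l ∈ a, v l - ∑ l ∈ b, v l = x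
  · rw [if_pos h3, if_pos (h.2 h3)]
  · rw [if_neg h3, if_neg (fun h' => h3 (h.1 h'))]

theorem D_le_kap (Y : Finset ι) (v : ι → ℝ) (x : ℝ) : D Y v x ≤ kap Y v := by
  have h := psd3 Y v ![0, x, 0] ![1, -1, 0]
  simp only [Fin.sum_univ_three] at h
  simp at h
  have h1 := D_neg Y v x
  have h2 : D Y v 0 = kap Y v := rfl
  rw [h1, h2] at h
  linarith

theorem sum_D_le (Y : Finset ι) (v : ι → ℝ) (T : Finset ℝ) : ∑ x ∈ T, D Y v x ≤ 1 := by
  simp_rw [D_eq]
  rw [← Finset.sum_div, Finset.sum_comm]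
  rw [div_le_one (by positivity)]
  have h1 : ∀ a ∈ Y.powerset, ∑ x ∈ T, ∑ b ∈ Y.powerset,
      (if ∑ l ∈ a, v l - ∑ l ∈ b, v l = x then (1 : ℝ) else 0) ≤ 2 ^ Y.card := by
    intro a _
    rw [Finset.sum_comm]
    calc ∑ b ∈ Y.powerset, ∑ x ∈ T,
          (if ∑ l ∈ a, v l - ∑ l ∈ b, v l = x then (1 : ℝ) else 0)
        ≤ ∑ _b ∈ Y.powerset, (1 : ℝ) := by
          refine Finset.sum_le_sum fun b _ => ?_
          rw [Finset.sum_ite_eq]
          split_ifs <;> norm_num
      _ = 2 ^ Y.card := by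
          rw [Finset.sum_const, Finset.card_powerset, nsmul_eq_mul, mul_one]
          push_cast
          rfl
  calc _ ≤ ∑ _a ∈ Y.powerset, (2 : ℝ) ^ Y.card := Finset.sum_le_sum h1
    _ = 4 ^ Y.card := by
        rw [Finset.sum_const, Finset.card_powerset, nsmul_eq_mul]
        push_cast
        rw [← mul_pow]
        norm_num

theorem sqrt_tri (Y : Finset ι) (v : ι → ℝ) (x y : ℝ) :
    √(kap Y v - D Y v (x + y)) ≤ √(kap Y v - D Y v x) + √(kap Y v - D Y v y) := by
  have hform : ∀ a b : ℝ, 0 ≤ a ^ 2 * (kap Y v - D Y v x) + b ^ 2 * (kap Y v - D Y v y) +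
      a * b * ((kap Y v - D Y v (x + y)) - (kap Y v - D Y v x) - (kap Y v - D Y v y)) := by
    intro a b
    have h := psd3 Y v ![0, x, x + y] ![a, b - a, -b]
    simp only [Fin.sum_univ_three] at h
    simp only [Matrix.cons_val_zero, Matrix.cons_val_one, Matrix.cons_val, sub_zero, zero_sub,
      sub_self] at h
    have e1 : x - (x + y) = -y := by ring
    have e2 : x + y - x = y := by ring
    rw [e1, e2, D_neg, D_neg, D_neg] at h
    have h2 : D Y v 0 = kap Y v := rfl
    rw [h2] at h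
    nlinarith
  set u := kap Y v - D Y v x with hu
  set w := kap Y v - D Y v y with hw
  set z := kap Y v - D Y v (x + y) with hz
  have hu0 : 0 ≤ u := sub_nonneg.2 (D_le_kap Y v x)
  have hw0 : 0 ≤ w := sub_nonneg.2 (D_le_kap Y v y)
  have hd : discrim u (z - u - w) w ≤ 0 := by
    apply discrim_le_zero
    intro a
    have := hform a 1
    nlinarith
  unfold discrim at hd
  have h1 : z - u - w ≤ 2 * (√u * √w) := by
    refine (abs_le_of_sq_le_sq' ?_ (by positivity)).2
    have h2 : (2 * (√u * √w)) ^ 2 = 4 * u * w := by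
      rw [mul_pow, mul_pow, Real.sq_sqrt hu0, Real.sq_sqrt hw0]
      ring
    rw [h2]
    linarith
  apply Real.sqrt_le_iff.2
  refine ⟨by positivity, ?_⟩
  have h3 : (√u + √w) ^ 2 = u + w + 2 * (√u * √w) := by
    have h4 := Real.sq_sqrt hu0
    have h5 := Real.sq_sqrt hw0
    nlinarith
  rw [h3]
  linarith

end SingG.Conc
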