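import Pool.Agent.Lib.MP_686cbb_pr.S.PsdA

/-!
# Inserting elements, products (module PsdB)

PROOF. Write `s a = ∑ l ∈ a, v l`.
* `kap_insert`: split the two subsets of `insert i Y` according to whether they contain `i`: the
  four parts give `κ, κ, D (v i), D (-v i)` times `4^|Y|` (`D_neg`), over `4^(|Y|+1)`.
* `kap_mono`: insert one element at a time and use `D_le_kap`.
* `cnt_sq_le`: pairs of subsets with the same sum `x`.
* `cnt_union_le`: `cnt (A ∪ B) x = ∑_z cnt A z * cnt B (x - z)` over `z` in the image of the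
  subset sums of `A`, then Cauchy-Schwarz (`Finset.sum_mul_le_sqrt_mul_sqrt`), and
  `∑_{z ∈ T} (cnt Y z)^2 ≤ 4^|Y| kap Y` for every finite `T` (disjoint sets of pairs with
  difference `0`), for `B` with the injective substitution `z ↦ x - z`.
-/

namespace SingG.Conc

open Finset

variable {ι : Type*} [DecidableEq ι]

private theorem four_D (Y : Finset ι) (v : ι → ℝ) (x : ℝ) :
    (4 : ℝ) ^ Y.card * D Y v x = ∑ a ∈ Y.powerset, ∑ b ∈ Y.powerset,
      if ∑ l ∈ a, v l - ∑ l ∈ b, v l = x then (1 : ℝ) else 0 := by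
  unfold D
  rw [mul_div_cancel₀ _ (by positivity), Finset.card_filter, Finset.sum_product]
  push_cast
  rfl

theorem kap_insert {i : ι} {Y : Finset ι} (hi : i ∉ Y) (v : ι → ℝ) :
    kap (insert i Y) v = (kap Y v + D Y v (v i)) / 2 := by
  have h1 := four_D (insert i Y) v 0
  have hs : ∀ a ∈ Y.powerset, ∑ l ∈ insert i a, v l = v i + ∑ l ∈ a, v l := by
    intro a ha
    exact Finset.sum_insert (fun h => hi (Finset.mem_powerset.1 ha h))
  have h2 : ∑ a ∈ (insert i Y).powerset, ∑ b ∈ (insert i Y).powerset,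
      (if ∑ l ∈ a, v l - ∑ l ∈ b, v l = 0 then (1 : ℝ) else 0) =
      2 * ((4 : ℝ) ^ Y.card * D Y v 0) + 2 * ((4 : ℝ) ^ Y.card * D Y v (v i)) := by
    rw [Finset.sum_powerset_insert hi]
    have h3 : ∀ a ∈ Y.powerset, ∑ b ∈ (insert i Y).powerset,
        (if ∑ l ∈ a, v l - ∑ l ∈ b, v l = 0 then (1 : ℝ) else 0) =
        ∑ b ∈ Y.powerset, (if ∑ l ∈ a, v l - ∑ l ∈ b, v l = 0 then (1 : ℝ) else 0) +
        ∑ b ∈ Y.powerset, (if ∑ l ∈ a, v l - ∑ l ∈ b, v l = v i then (1 : ℝ) else 0) := by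
      intro a ha
      rw [Finset.sum_powerset_insert hi]
      refine congrArg₂ (· + ·) rfl (Finset.sum_congr rfl (fun b hb => ?_))
      rw [hs b hb]
      refine if_congr ⟨fun h => by linarith, fun h => by linarith⟩ rfl rfl
    have h4 : ∀ a ∈ Y.powerset, ∑ b ∈ (insert i Y).powerset,
        (if ∑ l ∈ insert i a, v l - ∑ l ∈ b, v l = 0 then (1 : ℝ) else 0) =
        ∑ b ∈ Y.powerset, (if ∑ l ∈ a, v l - ∑ l ∈ b, v l = - v i then (1 : ℝ) else 0) +
        ∑ b ∈ Y.powerset, (if ∑ l ∈ a, v l - ∑ l ∈ b, v l = 0 then (1 : ℝ) else 0) := by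
      intro a ha
      rw [Finset.sum_powerset_insert hi, hs a ha]
      refine congrArg₂ (· + ·) (Finset.sum_congr rfl (fun b hb => ?_))
        (Finset.sum_congr rfl (fun b hb => ?_))
      · refine if_congr ⟨fun h => by linarith, fun h => by linarith⟩ rfl rfl
      · rw [hs b hb]
        refine if_congr ⟨fun h => by linarith, fun h => by linarith⟩ rfl rfl
    rw [Finset.sum_congr rfl h3, Finset.sum_congr rfl h4, Finset.sum_add_distrib,
      Finset.sum_add_distrib, ← four_D Y v 0, ← four_D Y v (v i), ← four_D Y v (- v i), D_neg]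
    ring
  rw [h2, Finset.card_insert_of_notMem hi, pow_succ] at h1
  unfold kap
  have h5 : (0 : ℝ) < (4 : ℝ) ^ Y.card := by positivity
  have h6 : (4 : ℝ) ^ Y.card * (4 * D (insert i Y) v 0 - 2 * D Y v 0 - 2 * D Y v (v i)) = 0 := by
    linarith
  rcases mul_eq_zero.1 h6 with h7 | h7
  · exact absurd h7 h5.ne'
  · linarith

theorem kap_mono {Y Z : Finset ι} (h : Y ⊆ Z) (v : ι → ℝ) : kap Z v ≤ kap Y v := by
  have h1 : ∀ W : Finset ι, kap (W ∪ Y) v ≤ kap Y v := by
    intro W
    induction W using Finset.induction_on with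
    | empty => rw [Finset.empty_union]
    | insert i W _ ih =>
      rw [Finset.insert_union]
      by_cases hi : i ∈ W ∪ Y
      · rw [Finset.insert_eq_of_mem hi]
        exact ih
      · rw [kap_insert hi]
        have := D_le_kap (W ∪ Y) v (v i)
        linarith
  have h2 := h1 Z
  rw [Finset.union_eq_left.2 h] at h2
  exact h2

theorem cnt_sq_le (Y : Finset ι) (v : ι → ℝ) (x : ℝ) :
    ((cnt Y v x : ℝ) / 2 ^ Y.card) ^ 2 ≤ kap Y v := by
  unfold kap D cnt
  rw [div_pow, ← pow_mul, mul_comm, pow_mul]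
  have h0 : (2 : ℝ) ^ 2 = 4 := by norm_num
  rw [h0]
  refine div_le_div_of_nonneg_right ?_ (by positivity)
  rw [sq, ← Nat.cast_mul, ← Finset.card_product]
  refine Nat.cast_le.2 (Finset.card_le_card ?_)
  intro p hp
  rw [Finset.mem_product, Finset.mem_filter, Finset.mem_filter] at hp
  rw [Finset.mem_filter, Finset.mem_product]
  refine ⟨⟨hp.1.1, hp.2.1⟩, ?_⟩
  rw [hp.1.2, hp.2.2, sub_self]

private theorem sum_cnt_sq_le (Y : Finset ι) (v : ι → ℝ) (T : Finset ℝ) :
    ∑ z ∈ T, (cnt Y v z : ℝ) ^ 2 ≤ 4 ^ Y.card * kap Y v := by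
  have h1 : (4 : ℝ) ^ Y.card * kap Y v = ∑ z ∈ Y.powerset.image (fun a => ∑ l ∈ a, v l),
      (cnt Y v z : ℝ) ^ 2 := by
    unfold kap
    rw [four_D]
    have h2 : ∀ a ∈ Y.powerset, ∑ b ∈ Y.powerset,
        (if ∑ l ∈ a, v l - ∑ l ∈ b, v l = 0 then (1 : ℝ) else 0) =
        (cnt Y v (∑ l ∈ a, v l) : ℝ) := by
      intro a _
      unfold cnt
      rw [Finset.card_filter]
      push_cast
      refine Finset.sum_congr rfl (fun b _ => ?_)
      refine if_congr ⟨fun h => by linarith, fun h => by linarith⟩ rfl rfl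
    rw [Finset.sum_congr rfl h2, Finset.sum_comp (fun z => (cnt Y v z : ℝ))
      (fun a => ∑ l ∈ a, v l)]
    refine Finset.sum_congr rfl (fun z _ => ?_)
    rw [nsmul_eq_mul, sq]
    rfl
  rw [h1]
  have h3 : ∑ z ∈ T ∪ Y.powerset.image (fun a => ∑ l ∈ a, v l), (cnt Y v z : ℝ) ^ 2 =
      ∑ z ∈ Y.powerset.image (fun a => ∑ l ∈ a, v l), (cnt Y v z : ℝ) ^ 2 := by
    symm
    refine Finset.sum_subset Finset.subset_union_right (fun z _ hz => ?_)
    have h4 : cnt Y v z = 0 := by
      unfold cnt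
      rw [Finset.card_eq_zero, Finset.filter_eq_empty_iff]
      intro a ha haz
      exact hz (Finset.mem_image.2 ⟨a, ha, haz⟩)
    rw [h4]
    norm_num
  rw [← h3]
  exact Finset.sum_le_sum_of_subset_of_nonneg Finset.subset_union_left
    (fun z _ _ => by positivity)

private theorem sum_powerset_union (A : Finset ι) (B : Finset ι) : Disjoint A B →
    ∀ f : Finset ι → ℝ, ∑ c ∈ (A ∪ B).powerset, f c =
      ∑ a ∈ A.powerset, ∑ b ∈ B.powerset, f (a ∪ b) := by
  induction B using Finset.induction_on with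
  | empty =>
    intro _ f
    simp only [Finset.union_empty, Finset.powerset_empty, Finset.sum_singleton]
  | insert i B hi ih =>
    intro h f
    rw [Finset.disjoint_insert_right] at h
    have h1 : i ∉ A ∪ B := by
      rw [Finset.mem_union]
      rintro (h2 | h2)
      · exact h.1 h2
      · exact hi h2
    rw [Finset.union_insert, Finset.sum_powerset_insert h1, ih h.2, ih h.2,
      ← Finset.sum_add_distrib]
    refine Finset.sum_congr rfl (fun a _ => ?_)
    rw [Finset.sum_powerset_insert hi]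
    refine congrArg₂ (· + ·) rfl (Finset.sum_congr rfl (fun b _ => ?_))
    rw [Finset.union_insert]

theorem cnt_union_le {A B : Finset ι} (h : Disjoint A B) (v : ι → ℝ) (x : ℝ) :
    (cnt (A ∪ B) v x : ℝ) ≤ 2 ^ (A ∪ B).card * √(kap A v * kap B v) := by
  have h1 : (cnt (A ∪ B) v x : ℝ) = ∑ z ∈ A.powerset.image (fun a => ∑ l ∈ a, v l),
      (cnt A v z : ℝ) * (cnt B v (x - z) : ℝ) := by
    have h2 : (cnt (A ∪ B) v x : ℝ) = ∑ c ∈ (A ∪ B).powerset,
        if ∑ l ∈ c, v l = x then (1 : ℝ) else 0 := by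
      unfold cnt
      rw [Finset.card_filter]
      push_cast
      rfl
    rw [h2, sum_powerset_union A B h]
    have h3 : ∀ a ∈ A.powerset, ∑ b ∈ B.powerset,
        (if ∑ l ∈ a ∪ b, v l = x then (1 : ℝ) else 0) = (cnt B v (x - ∑ l ∈ a, v l) : ℝ) := by
      intro a ha
      unfold cnt
      rw [Finset.card_filter]
      push_cast
      refine Finset.sum_congr rfl (fun b hb => ?_)
      rw [Finset.sum_union (Finset.disjoint_of_subset_left (Finset.mem_powerset.1 ha)
        (Finset.disjoint_of_subset_right (Finset.mem_powerset.1 hb) h))]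
      refine if_congr ⟨fun h => by linarith, fun h => by linarith⟩ rfl rfl
    rw [Finset.sum_congr rfl h3, Finset.sum_comp (fun z => (cnt B v (x - z) : ℝ))
      (fun a => ∑ l ∈ a, v l)]
    refine Finset.sum_congr rfl (fun z _ => ?_)
    rw [nsmul_eq_mul]
    rfl
  have h4 := Finset.sum_mul_sq_le_sq_mul_sq (A.powerset.image (fun a => ∑ l ∈ a, v l))
    (fun z => (cnt A v z : ℝ)) (fun z => (cnt B v (x - z) : ℝ))
  rw [← h1] at h4
  have h5 := sum_cnt_sq_le A v (A.powerset.image (fun a => ∑ l ∈ a, v l))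
  have h6 : ∑ z ∈ A.powerset.image (fun a => ∑ l ∈ a, v l), (cnt B v (x - z) : ℝ) ^ 2 ≤
      4 ^ B.card * kap B v := by
    have h7 := sum_cnt_sq_le B v ((A.powerset.image (fun a => ∑ l ∈ a, v l)).image
      (fun z => x - z))
    rw [Finset.sum_image (fun z _ w _ hzw => by linarith [show x - z = x - w from hzw])] at h7
    exact h7
  have hA : 0 ≤ kap A v := (kap_pos A v).le
  have hB : 0 ≤ kap B v := (kap_pos B v).le
  have h8 : (cnt (A ∪ B) v x : ℝ) ^ 2 ≤ (2 ^ (A ∪ B).card * √(kap A v * kap B v)) ^ 2 := by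
    rw [mul_pow, Real.sq_sqrt (mul_nonneg hA hB), Finset.card_union_of_disjoint h]
    refine le_trans h4 (le_trans (mul_le_mul h5 h6 (Finset.sum_nonneg (fun _ _ => sq_nonneg _))
      (by positivity)) (le_of_eq ?_))
    have h9 : ((2 : ℝ) ^ (A.card + B.card)) ^ 2 = 4 ^ A.card * 4 ^ B.card := by
      rw [← pow_mul, mul_comm, pow_mul, pow_add]
      norm_num
    rw [h9]
    ring
  have h10 := abs_le_of_sq_le_sq h8 (by positivity)
  exact le_trans (le_abs_self _) h10

end SingG.Conc
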