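import Mathlib

/-!
# The scales
-/

namespace SingG.Conc

/-- The scale `q`. -/
noncomputable def qq (n : ℕ) : ℕ := ⌊(n : ℝ) ^ (1 / 6 : ℝ)⌋₊

/-- The length `r`. -/
noncomputable def rr (n : ℕ) : ℕ := 4 * qq n ^ 2 * (⌊Real.log n⌋₊ + 1)

/-- The step `t`. -/
noncomputable def tt (n : ℕ) : ℝ := 1 / (2 * (qq n : ℝ) ^ 2)

end SingG.Conc
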