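import Pool.Agent.Lib.MP_686cbb_pr.S.PsdA

/-!
# Almost periods (module Sum)

PROOF. For `x ∈ Nn Y v (1/2)` one has `κ / 2 ≤ D x`, and `∑ D ≤ 1`, so `|Nn| κ ≤ 2`.
For `card_Nn_le` let `N = Nn Y v t`, which contains `0`. For `j ≥ 1` let `N_j` be the `j`-fold
sumset. By `sqrt_tri` all `x ∈ N_j` satisfy `√(κ - D x) ≤ j √(t κ)`, and
`|N_j| ≥ j |N| - (j - 1)` by `cauchy_davenport_add_of_linearOrder_isCancelAdd`. For `j = k`,
`κ - D x ≤ k^2 t κ ≤ κ/2`, so `N_k ⊆ {x | κ / 2 ≤ D x}` and `(k |N| - (k-1)) κ ≤ 2`.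
-/

namespace SingG.Conc

open Finset
open scoped Pointwise

variable {ι : Type*} [DecidableEq ι]

theorem mem_Nn {Y : Finset ι} {v : ι → ℝ} {t : ℝ} (ht : t < 1) {x : ℝ} :
    x ∈ Nn Y v t ↔ (1 - t) * kap Y v ≤ D Y v x := by
  unfold Nn
  rw [Finset.mem_filter]
  refine ⟨fun h => h.2, fun h => ⟨?_, h⟩⟩
  have h1 : 0 < D Y v x := by
    have h2 := kap_pos Y v
    have h3 : 0 < (1 - t) * kap Y v := mul_pos (by linarith) h2
    linarith
  by_contra hcon
  have h4 : D Y v x = 0 := by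
    unfold D
    have h5 : ((Y.powerset ×ˢ Y.powerset).filter
        (fun p => ∑ l ∈ p.1, v l - ∑ l ∈ p.2, v l = x)) = ∅ := by
      rw [Finset.filter_eq_empty_iff]
      intro p hp hpx
      exact hcon (Finset.mem_image.2 ⟨p, hp, hpx⟩)
    rw [h5]
    simp
  linarith

theorem zero_mem_Nn (Y : Finset ι) (v : ι → ℝ) {t : ℝ} (ht : 0 ≤ t) : (0 : ℝ) ∈ Nn Y v t := by
  unfold Nn
  rw [Finset.mem_filter]
  constructor
  · rw [Finset.mem_image]
    refine ⟨(∅, ∅), ?_, by simp⟩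
    rw [Finset.mem_product]
    exact ⟨Finset.empty_mem_powerset Y, Finset.empty_mem_powerset Y⟩
  · have h2 := kap_pos Y v
    have h3 : D Y v 0 = kap Y v := rfl
    rw [h3]
    nlinarith

/-- A finite set on which `κ / 2 ≤ D` has at most `2 / κ` elements. -/
private theorem card_half_le (Y : Finset ι) (v : ι → ℝ) (T : Finset ℝ)
    (hT : ∀ x ∈ T, kap Y v / 2 ≤ D Y v x) : (T.card : ℝ) * kap Y v ≤ 2 := by
  have h1 := sum_D_le Y v T
  have h2 : ∑ x ∈ T, kap Y v / 2 ≤ ∑ x ∈ T, D Y v x := Finset.sum_le_sum hT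
  rw [Finset.sum_const, nsmul_eq_mul] at h2
  linarith

theorem card_Nn_half (Y : Finset ι) (v : ι → ℝ) :
    ((Nn Y v (1 / 2)).card : ℝ) * kap Y v ≤ 2 := by
  refine card_half_le Y v _ (fun x hx => ?_)
  rw [mem_Nn (by norm_num)] at hx
  linarith

/-- The iterated sumsets. -/
private noncomputable def sums (N : Finset ℝ) : ℕ → Finset ℝ
  | 0 => N
  | j + 1 => sums N j + N

private theorem sums_nonempty {N : Finset ℝ} (hN : N.Nonempty) (j : ℕ) :
    (sums N j).Nonempty := by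
  induction j with
  | zero => exact hN
  | succ j ih => exact ih.add hN

private theorem card_sums {N : Finset ℝ} (hN : N.Nonempty) (j : ℕ) :
    (j + 1) * N.card ≤ (sums N j).card + j := by
  induction j with
  | zero => simp [sums]
  | succ j ih =>
    have h1 := cauchy_davenport_add_of_linearOrder_isCancelAdd (sums_nonempty hN j) hN
    have h2 : 1 ≤ N.card := hN.card_pos
    have h3 : (sums N (j + 1)).card = (sums N j + N).card := rfl
    rw [h3]
    have h4 : (j + 1 + 1) * N.card = (j + 1) * N.card + N.card := by ring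
    omega

private theorem sqrt_sums (Y : Finset ι) (v : ι → ℝ) (N : Finset ℝ) (c : ℝ)
    (hN : ∀ x ∈ N, √(kap Y v - D Y v x) ≤ c) (j : ℕ) :
    ∀ x ∈ sums N j, √(kap Y v - D Y v x) ≤ ((j : ℝ) + 1) * c := by
  induction j with
  | zero =>
    intro x hx
    have := hN x hx
    simpa using this
  | succ j ih =>
    intro x hx
    obtain ⟨y, hy, z, hz, rfl⟩ := Finset.mem_add.1 hx
    have h1 := sqrt_tri Y v y z
    have h2 := ih y hy
    have h3 := hN z hz
    push_cast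
    linarith

theorem card_Nn_le (Y : Finset ι) (v : ι → ℝ) (t : ℝ) (ht0 : 0 ≤ t) (k : ℕ) (hk : 1 ≤ k)
    (hkt : (k : ℝ) ^ 2 * t ≤ 1 / 2) :
    ((Nn Y v t).card : ℝ) * kap Y v ≤ kap Y v + 2 / k := by
  obtain ⟨j, rfl⟩ : ∃ j, k = j + 1 := ⟨k - 1, by omega⟩
  have hκ := kap_pos Y v
  have hne : (Nn Y v t).Nonempty := ⟨0, zero_mem_Nn Y v ht0⟩
  have hN : ∀ x ∈ Nn Y v t, √(kap Y v - D Y v x) ≤ √(t * kap Y v) := by
    intro x hx
    have h1 : (1 - t) * kap Y v ≤ D Y v x := (Finset.mem_filter.1 hx).2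
    exact Real.sqrt_le_sqrt (by linarith)
  have h1 := sqrt_sums Y v (Nn Y v t) _ hN j
  have h2 := card_sums hne j
  have h3 : ∀ x ∈ sums (Nn Y v t) j, kap Y v / 2 ≤ D Y v x := by
    intro x hx
    have h4 := h1 x hx
    have h5 : kap Y v - D Y v x ≤ (((j : ℝ) + 1) * √(t * kap Y v)) ^ 2 := by
      have h6 : 0 ≤ kap Y v - D Y v x := by linarith [D_le_kap Y v x]
      rw [← Real.sq_sqrt h6]
      exact pow_le_pow_left₀ (Real.sqrt_nonneg _) h4 2
    rw [mul_pow, Real.sq_sqrt (mul_nonneg ht0 hκ.le)] at h5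
    push_cast at hkt
    have h7 : ((j : ℝ) + 1) ^ 2 * (t * kap Y v) ≤ 1 / 2 * kap Y v := by
      rw [← mul_assoc]
      exact mul_le_mul_of_nonneg_right hkt hκ.le
    linarith
  have h8 := card_half_le Y v _ h3
  have h9 : ((j : ℝ) + 1) * ((Nn Y v t).card : ℝ) ≤ ((sums (Nn Y v t) j).card : ℝ) + j := by
    exact_mod_cast h2
  have hj : (0 : ℝ) < (j : ℝ) + 1 := by positivity
  push_cast
  have h10 : ((j : ℝ) + 1) * (((Nn Y v t).card : ℝ) * kap Y v) ≤ 2 + j * kap Y v := by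
    have h11 := mul_le_mul_of_nonneg_right h9 hκ.le
    linarith
  have h12 : ((Nn Y v t).card : ℝ) * kap Y v ≤ (2 + j * kap Y v) / ((j : ℝ) + 1) := by
    rw [le_div_iff₀ hj]
    linarith
  refine le_trans h12 ?_
  rw [div_le_iff₀ hj]
  have h13 : (2 : ℝ) / ((j : ℝ) + 1) * ((j : ℝ) + 1) = 2 := div_mul_cancel₀ _ hj.ne'
  nlinarith

end SingG.Conc
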