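import Pool.Agent.Lib.MP_686cbb_pr.S.Grd
import Pool.Agent.Lib.MP_686cbb_pr.S.Sum

/-!
# Structure of vectors with large concentration (module Str)

PROOF. All sets `Z` below are subsets of `S`, so `κ(Z) ≥ κ(S) ≥ κ₀` (`kap_mono`).
`Y₁` := `greedy` for `S, ∅`, `t = 1/2`, `r = m₀`; the second alternative would give
`κ₀ ≤ κ(Y₁) ≤ (3/4)^m₀ < κ₀`, so `v i ∈ Nn Y₁ (1/2)` for `i ∈ S \ Y₁`, `|Y₁| ≤ m₀`.
`C₁ ⊇ Y₁` := `greedy` for `S, Y₁`, `t`, `r`. Then the same inside `S \ C₁`: `Y₂ ⊆ C₂ ⊆ S \ C₁`.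
`C = C₁ ∪ C₂`, `c₀ = √(κ(C₁) κ(C₂)) ≥ κ₀`, and `cnt C ≤ 2^|C| c₀` by `cnt_union_le`.
All `i ∈ S \ C` satisfy `v i ∈ Nn Y_a (1/2)`; and `v i ∈ Nn C_a t` if `C_a` is in the first
alternative; otherwise `κ(C_a) ≤ γ κ(Y_a)`.
Case A: some `a` is in the second alternative. Take `Y = Y_b` where `κ(Y_b)` is the larger of
`κ(Y₁), κ(Y₂)`. As `κ(C₁) κ(C₂) ≤ γ κ(Y₁) κ(Y₂) ≤ γ κ(Y_b)^2`, `c₀ ≤ √γ κ(Y_b)` and
`|Nn Y_b (1/2)| c₀ ≤ 2 √γ`.
Case B: both in the first alternative. Take `Y = C_a` with the larger `κ(C_a)`, so `c₀ ≤ κ(C_a)` and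
`|Nn C_a t| c₀ ≤ (κ(C_a) + 2/k) c₀ / κ(C_a) ≤ c₀ + 2/k`. The values `v i`, `i ∈ S \ Y₁` (or
`i ∈ (S \ C₁) \ Y₂`), lie in `Nn Y_a (1/2)` and at least `n/2` of them are distinct, so
`κ(Y_a) ≤ 4/n`, and `c₀ ≤ √(κ(Y₁) κ(Y₂)) ≤ 4/n`.
-/

namespace SingG.Conc

open Finset

private theorem kap_le_of_values {n : ℕ} (hn : 1 ≤ n) (v : Fin n → ℝ) (Y W : Finset (Fin n))
    (h : ∀ i ∈ W, v i ∈ Nn Y v (1 / 2)) (hc : (n : ℝ) / 2 ≤ ((W.image v).card : ℝ)) :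
    kap Y v ≤ 4 / n := by
  have h1 : ((W.image v).card : ℝ) ≤ ((Nn Y v (1 / 2)).card : ℝ) := by
    apply Nat.cast_le.2
    apply card_le_card
    intro x hx
    obtain ⟨i, hi, rfl⟩ := mem_image.1 hx
    exact h i hi
  have h2 := card_Nn_half Y v
  have h3 := kap_pos Y v
  have hn' : (0 : ℝ) < n := by
    have : (1 : ℝ) ≤ n := by exact_mod_cast hn
    linarith
  rw [le_div_iff₀ hn']
  nlinarith [mul_le_mul_of_nonneg_right (hc.trans h1) h3.le]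

private theorem image_card_ge {n : ℕ} (v : Fin n → ℝ) (W : Finset (Fin n)) (a : ℝ)
    (hc : a + ((univ \ W).card : ℝ) ≤ (((univ : Finset (Fin n)).image v).card : ℝ)) :
    a ≤ ((W.image v).card : ℝ) := by
  have h1 : (univ : Finset (Fin n)).image v ⊆ W.image v ∪ (univ \ W).image v := by
    rw [← image_union]
    apply image_subset_image
    intro i _
    by_cases hi : i ∈ W
    · exact mem_union_left _ hi
    · exact mem_union_right _ (mem_sdiff.2 ⟨mem_univ _, hi⟩)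
  have h2 : (((univ : Finset (Fin n)).image v).card : ℝ) ≤
      ((W.image v).card : ℝ) + ((univ \ W).card : ℝ) := by
    have := (card_le_card h1).trans (card_union_le _ _)
    have h3 := this.trans (Nat.add_le_add_left (card_image_le (s := univ \ W) (f := v)) _)
    exact_mod_cast h3
  linarith

private theorem sqrt_mul_le_max {a b x : ℝ} (ha : 0 ≤ a) (hb : 0 ≤ b) (hax : a ≤ x) (hbx : b ≤ x) :
    √(a * b) ≤ x := by
  have hx : 0 ≤ x := ha.trans hax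
  rw [Real.sqrt_le_iff]
  exact ⟨hx, by nlinarith [mul_le_mul hax hbx hb hx]⟩

/-- One step: the pair `(Y, C)` inside `S'`. -/
private theorem step {n : ℕ} (v : Fin n → ℝ) (S S' : Finset (Fin n)) (hS : S' ⊆ S) (κ₀ : ℝ)
    (hκ : κ₀ ≤ kap S v) (m₀ r : ℕ) (hm₀ : (3 / 4 : ℝ) ^ m₀ < κ₀)
    (t : ℝ) (ht1 : t ≤ 1 / 2) (γ : ℝ) (hγ : (1 - t / 2) ^ r ≤ γ) :
    ∃ Y C : Finset (Fin n), Y ⊆ C ∧ C ⊆ S' ∧ Y.card ≤ m₀ ∧ C.card ≤ m₀ + r ∧
      κ₀ ≤ kap C v ∧ kap C v ≤ kap Y v ∧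
      (∀ i ∈ S' \ Y, v i ∈ Nn Y v (1 / 2)) ∧
      ((∀ i ∈ S' \ C, v i ∈ Nn C v t) ∨ kap C v ≤ γ * kap Y v) := by
  obtain ⟨Y, _, hYS, hYc, hY⟩ := greedy v S' ∅ (empty_subset _) (1 / 2) (by norm_num) m₀
  have hYc' : Y.card ≤ m₀ := by simpa using hYc
  have hY' : ∀ i ∈ S' \ Y, (1 - 1 / 2) * kap Y v ≤ D Y v (v i) := by
    rcases hY with hY | hY
    · exact hY
    · exfalso
      have h1 : κ₀ ≤ kap Y v := hκ.trans (kap_mono (hYS.trans hS) v)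
      rw [kap_empty] at hY
      have h2 : (1 - 1 / 2 / 2 : ℝ) = 3 / 4 := by norm_num
      rw [h2] at hY
      linarith
  obtain ⟨C, hYC, hCS, hCc, hC⟩ := greedy v S' Y hYS t (by linarith) r
  refine ⟨Y, C, hYC, hCS, hYc', by omega, hκ.trans (kap_mono (hCS.trans hS) v),
    kap_mono hYC v, ?_, ?_⟩
  · intro i hi
    rw [mem_Nn (by norm_num)]
    exact hY' i hi
  · rcases hC with hC | hC
    · left
      intro i hi
      rw [mem_Nn (by linarith)]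
      exact hC i hi
    · right
      exact hC.trans (mul_le_mul_of_nonneg_right hγ (kap_pos Y v).le)

theorem structure_thm {n : ℕ} (hn : 1 ≤ n) (v : Fin n → ℝ) (S : Finset (Fin n)) (κ₀ : ℝ)
    (hκ₀ : 0 < κ₀) (hκ : κ₀ ≤ kap S v) (m₀ r k : ℕ) (hm₀ : (3 / 4 : ℝ) ^ m₀ < κ₀) (hk : 1 ≤ k)
    (t : ℝ) (ht0 : 0 < t) (ht1 : t ≤ 1 / 2) (hkt : (k : ℝ) ^ 2 * t ≤ 1 / 2) (γ : ℝ) (hγ0 : 0 ≤ γ)
    (hγ1 : γ ≤ 1) (hγ : (1 - t / 2) ^ r ≤ γ)
    (hd : (n : ℝ) / 2 + (2 * m₀ + r) + (n - S.card) ≤ ((univ.image v).card : ℝ)) :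
    ∃ (C Y : Finset (Fin n)) (θ c₀ : ℝ), Y ⊆ C ∧ C ⊆ S ∧ C.card ≤ 2 * (m₀ + r) ∧
      Y.card ≤ m₀ + r ∧ (θ = 1 / 2 ∨ θ = t) ∧ κ₀ ≤ c₀ ∧
      (∀ x : ℝ, (cnt C v x : ℝ) ≤ 2 ^ C.card * c₀) ∧ (∀ i ∈ S \ C, v i ∈ Nn Y v θ) ∧
      ((Nn Y v θ).card : ℝ) * c₀ ≤ 4 / n + 2 / k + 2 * √γ := by
  obtain ⟨Y₁, C₁, hYC1, hCS1, hYc1, hCc1, hk1, hkk1, hN1, hA1⟩ :=
    step v S S (Subset.refl _) κ₀ hκ m₀ r hm₀ t ht1 γ hγ
  obtain ⟨Y₂, C₂, hYC2, hCS2, hYc2, hCc2, hk2, hkk2, hN2, hA2⟩ :=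
    step v S (S \ C₁) sdiff_subset κ₀ hκ m₀ r hm₀ t ht1 γ hγ
  have hdisj : Disjoint C₁ C₂ := by
    rw [disjoint_left]
    intro i h1 h2
    exact (mem_sdiff.1 (hCS2 h2)).2 h1
  have hCS2' : C₂ ⊆ S := hCS2.trans sdiff_subset
  have hCS : C₁ ∪ C₂ ⊆ S := union_subset hCS1 hCS2'
  have hCcard : (C₁ ∪ C₂).card ≤ 2 * (m₀ + r) := (card_union_le _ _).trans (by omega)
  have hnpos : (0 : ℝ) < n := by
    have : (1 : ℝ) ≤ n := by exact_mod_cast hn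
    linarith
  have hkpos : (0 : ℝ) < k := by
    have : (1 : ℝ) ≤ k := by exact_mod_cast hk
    linarith
  have hC1pos := kap_pos C₁ v
  have hC2pos := kap_pos C₂ v
  have hY1pos := kap_pos Y₁ v
  have hY2pos := kap_pos Y₂ v
  have hc₀ : κ₀ ≤ √(kap C₁ v * kap C₂ v) := by
    apply Real.le_sqrt_of_sq_le
    nlinarith [mul_le_mul hk1 hk2 hκ₀.le hC1pos.le]
  have hcnt : ∀ x : ℝ, (cnt (C₁ ∪ C₂) v x : ℝ) ≤ 2 ^ (C₁ ∪ C₂).card * √(kap C₁ v * kap C₂ v) :=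
    fun x => cnt_union_le hdisj v x
  have h4n : 0 ≤ 4 / (n : ℝ) := by positivity
  have h2k : 0 ≤ 2 / (k : ℝ) := by positivity
  have hsγ : 0 ≤ √γ := Real.sqrt_nonneg _
  have hmem1 : ∀ i ∈ S \ (C₁ ∪ C₂), i ∈ S \ C₁ := by
    intro i hi
    rw [mem_sdiff] at hi ⊢
    exact ⟨hi.1, fun h => hi.2 (mem_union_left _ h)⟩
  have hmem1' : ∀ i ∈ S \ (C₁ ∪ C₂), i ∈ S \ Y₁ := by
    intro i hi
    rw [mem_sdiff] at hi ⊢
    exact ⟨hi.1, fun h => hi.2 (mem_union_left _ (hYC1 h))⟩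
  have hmem2 : ∀ i ∈ S \ (C₁ ∪ C₂), i ∈ (S \ C₁) \ C₂ := by
    intro i hi
    rw [mem_sdiff] at hi
    exact mem_sdiff.2 ⟨mem_sdiff.2 ⟨hi.1, fun h => hi.2 (mem_union_left _ h)⟩,
      fun h => hi.2 (mem_union_right _ h)⟩
  have hmem2' : ∀ i ∈ S \ (C₁ ∪ C₂), i ∈ (S \ C₁) \ Y₂ := by
    intro i hi
    rw [mem_sdiff] at hi
    exact mem_sdiff.2 ⟨mem_sdiff.2 ⟨hi.1, fun h => hi.2 (mem_union_left _ h)⟩,
      fun h => hi.2 (mem_union_right _ (hYC2 h))⟩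
  -- Case A as a lemma
  have caseA : kap C₁ v * kap C₂ v ≤ γ * (kap Y₁ v * kap Y₂ v) →
      ∃ (C Y : Finset (Fin n)) (θ c₀ : ℝ), Y ⊆ C ∧ C ⊆ S ∧ C.card ≤ 2 * (m₀ + r) ∧
      Y.card ≤ m₀ + r ∧ (θ = 1 / 2 ∨ θ = t) ∧ κ₀ ≤ c₀ ∧
      (∀ x : ℝ, (cnt C v x : ℝ) ≤ 2 ^ C.card * c₀) ∧ (∀ i ∈ S \ C, v i ∈ Nn Y v θ) ∧
      ((Nn Y v θ).card : ℝ) * c₀ ≤ 4 / n + 2 / k + 2 * √γ := by
    intro hle
    have key : ∀ Y : Finset (Fin n), kap Y₁ v ≤ kap Y v → kap Y₂ v ≤ kap Y v →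
        ((Nn Y v (1 / 2)).card : ℝ) * √(kap C₁ v * kap C₂ v) ≤ 4 / n + 2 / k + 2 * √γ := by
      intro Y h1 h2
      have hYpos := kap_pos Y v
      have h3 : √(kap C₁ v * kap C₂ v) ≤ √γ * kap Y v := by
        have h4 : kap C₁ v * kap C₂ v ≤ γ * (kap Y v) ^ 2 := by
          refine hle.trans (mul_le_mul_of_nonneg_left ?_ hγ0)
          rw [sq]
          exact mul_le_mul h1 h2 hY2pos.le hYpos.le
        calc √(kap C₁ v * kap C₂ v) ≤ √(γ * (kap Y v) ^ 2) := Real.sqrt_le_sqrt h4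
          _ = √γ * kap Y v := by
            rw [Real.sqrt_mul hγ0, Real.sqrt_sq hYpos.le]
      have h5 := card_Nn_half Y v
      calc ((Nn Y v (1 / 2)).card : ℝ) * √(kap C₁ v * kap C₂ v)
          ≤ ((Nn Y v (1 / 2)).card : ℝ) * (√γ * kap Y v) :=
            mul_le_mul_of_nonneg_left h3 (Nat.cast_nonneg _)
        _ = √γ * (((Nn Y v (1 / 2)).card : ℝ) * kap Y v) := by ring
        _ ≤ √γ * 2 := mul_le_mul_of_nonneg_left h5 hsγ
        _ ≤ 4 / n + 2 / k + 2 * √γ := by linarith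
    rcases le_total (kap Y₁ v) (kap Y₂ v) with h | h
    · exact ⟨C₁ ∪ C₂, Y₂, 1 / 2, _, hYC2.trans subset_union_right, hCS, hCcard, by omega,
        Or.inl rfl, hc₀, hcnt, fun i hi => hN2 i (hmem2' i hi), key Y₂ h le_rfl⟩
    · exact ⟨C₁ ∪ C₂, Y₁, 1 / 2, _, hYC1.trans subset_union_left, hCS, hCcard, by omega,
        Or.inl rfl, hc₀, hcnt, fun i hi => hN1 i (hmem1' i hi), key Y₁ le_rfl h⟩
  rcases hA1 with hA1 | hA1
  swap
  · apply caseA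
    calc kap C₁ v * kap C₂ v ≤ (γ * kap Y₁ v) * kap Y₂ v :=
          mul_le_mul hA1 hkk2 hC2pos.le (mul_nonneg hγ0 hY1pos.le)
      _ = γ * (kap Y₁ v * kap Y₂ v) := by ring
  rcases hA2 with hA2 | hA2
  swap
  · apply caseA
    calc kap C₁ v * kap C₂ v ≤ kap Y₁ v * (γ * kap Y₂ v) :=
          mul_le_mul hkk1 hA2 hC2pos.le hY1pos.le
      _ = γ * (kap Y₁ v * kap Y₂ v) := by ring
  -- Case B
  have hSn : S.card ≤ n := by simpa using card_le_univ S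
  have hY1n : kap Y₁ v ≤ 4 / n := by
    refine kap_le_of_values hn v Y₁ (S \ Y₁) hN1 (image_card_ge v _ _ ?_)
    have h1 : univ \ (S \ Y₁) ⊆ (univ \ S) ∪ Y₁ := by
      intro i hi
      by_cases h : i ∈ Y₁
      · exact mem_union_right _ h
      · refine mem_union_left _ (mem_sdiff.2 ⟨mem_univ _, fun h' => ?_⟩)
        exact (mem_sdiff.1 hi).2 (mem_sdiff.2 ⟨h', h⟩)
    have h2 : (univ \ (S \ Y₁)).card ≤ (univ \ S).card + Y₁.card :=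
      (card_le_card h1).trans (card_union_le _ _)
    have h3 : (univ \ S).card = n - S.card := by
      rw [card_sdiff_of_subset (subset_univ _), card_univ, Fintype.card_fin]
    have h4 : ((univ \ (S \ Y₁)).card : ℝ) ≤ ((n : ℝ) - S.card) + m₀ := by
      have : (univ \ (S \ Y₁)).card ≤ (n - S.card) + m₀ := by omega
      calc ((univ \ (S \ Y₁)).card : ℝ) ≤ (((n - S.card) + m₀ : ℕ) : ℝ) := by exact_mod_cast this
        _ = ((n : ℝ) - S.card) + m₀ := by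
          rw [Nat.cast_add, Nat.cast_sub hSn]
    have h5 : (0 : ℝ) ≤ m₀ := Nat.cast_nonneg _
    have h6 : (0 : ℝ) ≤ r := Nat.cast_nonneg _
    linarith
  have hY2n : kap Y₂ v ≤ 4 / n := by
    refine kap_le_of_values hn v Y₂ ((S \ C₁) \ Y₂) hN2 (image_card_ge v _ _ ?_)
    have h1 : univ \ ((S \ C₁) \ Y₂) ⊆ (univ \ S) ∪ (C₁ ∪ Y₂) := by
      intro i hi
      by_cases h : i ∈ Y₂
      · exact mem_union_right _ (mem_union_right _ h)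
      · by_cases h'' : i ∈ C₁
        · exact mem_union_right _ (mem_union_left _ h'')
        · refine mem_union_left _ (mem_sdiff.2 ⟨mem_univ _, fun h' => ?_⟩)
          exact (mem_sdiff.1 hi).2 (mem_sdiff.2 ⟨mem_sdiff.2 ⟨h', h''⟩, h⟩)
    have h2 : (univ \ ((S \ C₁) \ Y₂)).card ≤ (univ \ S).card + (C₁.card + Y₂.card) :=
      (card_le_card h1).trans ((card_union_le _ _).trans
        (Nat.add_le_add_left (card_union_le _ _) _))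
    have h3 : (univ \ S).card = n - S.card := by
      rw [card_sdiff_of_subset (subset_univ _), card_univ, Fintype.card_fin]
    have h4 : ((univ \ ((S \ C₁) \ Y₂)).card : ℝ) ≤ ((n : ℝ) - S.card) + (2 * m₀ + r) := by
      have : (univ \ ((S \ C₁) \ Y₂)).card ≤ (n - S.card) + (2 * m₀ + r) := by omega
      calc ((univ \ ((S \ C₁) \ Y₂)).card : ℝ)
          ≤ (((n - S.card) + (2 * m₀ + r) : ℕ) : ℝ) := by exact_mod_cast this
        _ = ((n : ℝ) - S.card) + (2 * m₀ + r) := by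
          rw [Nat.cast_add, Nat.cast_sub hSn]; push_cast; ring
    linarith
  have hc4 : √(kap C₁ v * kap C₂ v) ≤ 4 / n :=
    sqrt_mul_le_max hC1pos.le hC2pos.le (hkk1.trans hY1n) (hkk2.trans hY2n)
  have keyB : ∀ C' : Finset (Fin n), kap C₁ v ≤ kap C' v → kap C₂ v ≤ kap C' v →
      ((Nn C' v t).card : ℝ) * √(kap C₁ v * kap C₂ v) ≤ 4 / n + 2 / k + 2 * √γ := by
    intro C' h1 h2
    have hpos := kap_pos C' v
    have h3 : √(kap C₁ v * kap C₂ v) ≤ kap C' v := sqrt_mul_le_max hC1pos.le hC2pos.le h1 h2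
    have h4 := card_Nn_le C' v t ht0.le k hk hkt
    set c := √(kap C₁ v * kap C₂ v) with hc
    have hc0 : 0 ≤ c := Real.sqrt_nonneg _
    -- (N * κ) * (c / κ) ≤ (κ + 2/k) * (c/κ)
    have h5 : ((Nn C' v t).card : ℝ) * c ≤ c + 2 / k := by
      have h6 : ((Nn C' v t).card : ℝ) * c = (((Nn C' v t).card : ℝ) * kap C' v) * (c / kap C' v) := by
        field_simp
      have h7 : 0 ≤ c / kap C' v := div_nonneg hc0 hpos.le
      have h8 : c / kap C' v ≤ 1 := (div_le_one hpos).2 h3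
      rw [h6]
      calc (((Nn C' v t).card : ℝ) * kap C' v) * (c / kap C' v)
          ≤ (kap C' v + 2 / k) * (c / kap C' v) := mul_le_mul_of_nonneg_right h4 h7
        _ = c + 2 / k * (c / kap C' v) := by
          rw [add_mul]; congr 1; field_simp
        _ ≤ c + 2 / k * 1 := by
          have := mul_le_mul_of_nonneg_left h8 h2k
          linarith
        _ = c + 2 / k := by ring
    linarith
  rcases le_total (kap C₁ v) (kap C₂ v) with h | h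
  · exact ⟨C₁ ∪ C₂, C₂, t, _, subset_union_right, hCS, hCcard, hCc2,
      Or.inr rfl, hc₀, hcnt, fun i hi => hA2 i (hmem2 i hi), keyB C₂ h le_rfl⟩
  · exact ⟨C₁ ∪ C₂, C₁, t, _, subset_union_left, hCS, hCcard, hCc1,
      Or.inr rfl, hc₀, hcnt, fun i hi => hA1 i (hmem1 i hi), keyB C₁ le_rfl h⟩

end SingG.Conc
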