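import Pool.Agent.Lib.MP_686cbb_pr.S.Sum

/-!
# Few types of base vectors (module Typ)

PROOF. Let `Q = (P(Y) × P(Y)) × (P(Y) × P(Y))`, `|Q| = 16^|Y|`, and for `q = ((a,b),(a',b'))` let
`vec q = 1_a - 1_b - 1_{a'} + 1_{b'}`, a vector supported on `Y`. The type of `v` is
`R(v) = {q ∈ Q | s_a - s_b = s_{a'} - s_{b'}} = {q ∈ Q | ⟨vec q, v⟩ = 0}`. If `q ∈ Q` and `vec q` lies
in the span of `{vec q' | q' ∈ R(v)}` then `q ∈ R(v)`. The span has dimension `≤ |Y|`, so there is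
`τ : Fin |Y| → Q` with `R(v) = cl τ := {q ∈ Q | vec q ∈ span (vec ∘ τ)}` (pad with the zero element
`((∅,∅),(∅,∅))`). So there are at most `(16^|Y|)^|Y|` types.
`D Y v x` for `x = s_{a'} - s_{b'}` is `#{(a,b) | ((a,b),(a',b')) ∈ R(v)} / 4^|Y|`: it depends only on
`R(v)` (and on `(a',b')`); so does `kap Y v` (`a' = b' = ∅`).
For every type `R` choose `u` with `R(u) = R` and let `E_R` be a set of pairs `p`, one for each
`x ∈ Nn Y u θ`, with `s_{p.1}(u) - s_{p.2}(u) = x`. For `v` with `R(v) = R`: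
`|E_R| = |Nn Y u θ| ≤ |Nn Y v θ|` (map `x = s_p(u)`, `p ∈ E_R`, to `s_p(v)`: injective and into `Nn`),
and every `x ∈ Nn Y v θ` equals `s_{p'}(v)` for some pair `p'`; then `s_{p'}(u) ∈ Nn Y u θ`, so
`s_{p'}(u) = s_p(u)` for some `p ∈ E_R`, hence `s_{p'}(v) = s_p(v)`.
-/

namespace SingG.Conc

open Finset

private def ss {n : ℕ} (p : Finset (Fin n) × Finset (Fin n)) (v : Fin n → ℝ) : ℝ :=
  ∑ l ∈ p.1, v l - ∑ l ∈ p.2, v l

private def PY {n : ℕ} (Y : Finset (Fin n)) : Finset (Finset (Fin n) × Finset (Fin n)) :=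
  Y.powerset ×ˢ Y.powerset

private theorem mem_PY {n : ℕ} {Y : Finset (Fin n)} {p : Finset (Fin n) × Finset (Fin n)} :
    p ∈ PY Y ↔ p.1 ⊆ Y ∧ p.2 ⊆ Y := by
  simp [PY]

private theorem card_PY {n : ℕ} (Y : Finset (Fin n)) : (PY Y).card = 4 ^ Y.card := by
  rw [PY, card_product, card_powerset, ← mul_pow]
  norm_num

private def vec {n : ℕ} (Y : Finset (Fin n)) (p : Finset (Fin n) × Finset (Fin n)) : Y → ℝ :=
  fun i => (if (i : Fin n) ∈ p.1 then 1 else 0) - (if (i : Fin n) ∈ p.2 then 1 else 0)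

private theorem sum_ind {n : ℕ} (Y a : Finset (Fin n)) (ha : a ⊆ Y) (v : Fin n → ℝ) :
    ∑ i : Y, (if (i : Fin n) ∈ a then (1 : ℝ) else 0) * v i = ∑ l ∈ a, v l := by
  rw [Finset.sum_coe_sort Y (fun i => (if i ∈ a then (1 : ℝ) else 0) * v i)]
  simp only [ite_mul, one_mul, zero_mul]
  rw [← Finset.sum_filter]
  apply Finset.sum_congr _ (fun _ _ => rfl)
  ext i
  simp only [mem_filter]
  exact ⟨fun h => h.2, fun h => ⟨ha h, h⟩⟩

private theorem ss_eq {n : ℕ} (Y : Finset (Fin n)) (p : Finset (Fin n) × Finset (Fin n))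
    (hp : p ∈ PY Y) (v : Fin n → ℝ) : ∑ i : Y, vec Y p i * v i = ss p v := by
  obtain ⟨h1, h2⟩ := mem_PY.1 hp
  unfold vec ss
  simp only [sub_mul, Finset.sum_sub_distrib]
  rw [sum_ind Y p.1 h1, sum_ind Y p.2 h2]

private abbrev P4 (n : ℕ) : Type :=
  (Finset (Fin n) × Finset (Fin n)) × (Finset (Fin n) × Finset (Fin n))

private noncomputable def rel {n : ℕ} (Y : Finset (Fin n)) (v : Fin n → ℝ) : Finset (P4 n) :=
  (PY Y ×ˢ PY Y).filter (fun q => ss q.1 v = ss q.2 v)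

open Classical in
private noncomputable def cl {n : ℕ} (Y : Finset (Fin n)) (τ : Fin Y.card → P4 n) :
    Finset (P4 n) :=
  (PY Y ×ˢ PY Y).filter (fun q => vec Y q.1 - vec Y q.2 ∈
    Submodule.span ℝ (Set.range (fun j => vec Y (τ j).1 - vec Y (τ j).2)))

private theorem exists_tau {n : ℕ} (Y : Finset (Fin n)) (v : Fin n → ℝ) :
    ∃ τ : Fin Y.card → P4 n, (∀ j, τ j ∈ PY Y ×ˢ PY Y) ∧ rel Y v = cl Y τ := by
  classical
  set fam : rel Y v → (Y → ℝ) := fun q => vec Y q.1.1 - vec Y q.1.2 with hfam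
  obtain ⟨κ, a, hinj, hspan, hLI⟩ := exists_linearIndependent' ℝ fam
  have : Finite κ := Finite.of_injective a hinj
  have : Fintype κ := Fintype.ofFinite κ
  have hcard : Fintype.card κ ≤ Y.card := by
    have := hLI.fintype_card_le_finrank
    rwa [Module.finrank_fintype_fun_eq_card, Fintype.card_coe] at this
  obtain ⟨e⟩ : Nonempty (κ ↪ Fin Y.card) := by
    apply Function.Embedding.nonempty_of_card_le
    rwa [Fintype.card_fin]
  set z : P4 n := ((∅, ∅), (∅, ∅)) with hz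
  set τ : Fin Y.card → P4 n := Function.extend e (fun k => (a k : P4 n)) (fun _ => z) with hτ
  have hτe : ∀ k, τ (e k) = (a k : P4 n) := fun k => by
    rw [hτ]
    exact e.injective.extend_apply _ _ k
  have hτn : ∀ j, (¬ ∃ k, e k = j) → τ j = z := fun j hj => by
    rw [hτ]
    exact Function.extend_apply' _ _ j hj
  have hz0 : vec Y z.1 - vec Y z.2 = 0 := by
    rw [hz]
    simp
  have hzmem : z ∈ PY Y ×ˢ PY Y := by
    rw [hz, mem_product]
    constructor <;> exact mem_PY.2 ⟨empty_subset _, empty_subset _⟩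
  have hamem : ∀ k, (a k : P4 n) ∈ PY Y ×ˢ PY Y := fun k => (mem_filter.1 (a k).2).1
  have hmem : ∀ j, τ j ∈ PY Y ×ˢ PY Y := by
    intro j
    by_cases hj : ∃ k, e k = j
    · obtain ⟨k, rfl⟩ := hj
      rw [hτe]
      exact hamem k
    · rw [hτn j hj]
      exact hzmem
  have hspan2 : Submodule.span ℝ (Set.range (fun j => vec Y (τ j).1 - vec Y (τ j).2)) =
      Submodule.span ℝ (Set.range fam) := by
    rw [← hspan]
    apply le_antisymm
    · rw [Submodule.span_le]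
      rintro _ ⟨j, rfl⟩
      by_cases hj : ∃ k, e k = j
      · obtain ⟨k, rfl⟩ := hj
        simp only [hτe]
        exact Submodule.subset_span ⟨k, rfl⟩
      · simp only [hτn j hj, hz0]
        exact Submodule.zero_mem _
    · rw [Submodule.span_le]
      rintro _ ⟨k, rfl⟩
      apply Submodule.subset_span
      refine ⟨e k, ?_⟩
      simp only [hτe]
      rfl
  refine ⟨τ, hmem, ?_⟩
  ext q
  unfold cl
  rw [mem_filter, hspan2]
  constructor
  · intro hq
    refine ⟨(mem_filter.1 hq).1, ?_⟩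
    exact Submodule.subset_span ⟨⟨q, hq⟩, rfl⟩
  · rintro ⟨hq, hs⟩
    refine mem_filter.2 ⟨hq, ?_⟩
    rw [mem_product] at hq
    have hvan : ∀ w ∈ Submodule.span ℝ (Set.range fam), ∑ i : Y, w i * v i = 0 := by
      intro w hw
      induction hw using Submodule.span_induction with
      | mem x hx =>
        obtain ⟨q', rfl⟩ := hx
        have h1 := mem_filter.1 q'.2
        have h2 := mem_product.1 h1.1
        simp only [hfam, Pi.sub_apply, sub_mul, Finset.sum_sub_distrib]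
        rw [ss_eq Y _ h2.1, ss_eq Y _ h2.2, h1.2, sub_self]
      | zero => simp
      | add x y _ _ hx hy =>
        simp only [Pi.add_apply, add_mul, Finset.sum_add_distrib]
        rw [hx, hy, add_zero]
      | smul c x _ hx =>
        simp only [Pi.smul_apply, smul_eq_mul, mul_assoc]
        rw [← Finset.mul_sum, hx, mul_zero]
    have h3 := hvan _ hs
    simp only [Pi.sub_apply, sub_mul, Finset.sum_sub_distrib] at h3
    rw [ss_eq Y _ hq.1, ss_eq Y _ hq.2] at h3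
    linarith

private theorem D_ss {n : ℕ} (Y : Finset (Fin n)) (v : Fin n → ℝ)
    (p : Finset (Fin n) × Finset (Fin n)) (hp : p ∈ PY Y) :
    D Y v (ss p v) = (((PY Y).filter (fun p' => (p', p) ∈ rel Y v)).card : ℝ) / 4 ^ Y.card := by
  unfold D
  congr 3
  change (PY Y).filter _ = _
  apply Finset.filter_congr
  intro p' hp'
  unfold rel
  rw [mem_filter, mem_product]
  exact ⟨fun h => ⟨⟨hp', hp⟩, h⟩, fun h => h.2⟩

private theorem kap_ss {n : ℕ} (Y : Finset (Fin n)) (v : Fin n → ℝ) :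
    kap Y v = (((PY Y).filter (fun p' => (p', (∅, ∅)) ∈ rel Y v)).card : ℝ) / 4 ^ Y.card := by
  rw [← D_ss Y v (∅, ∅) (mem_PY.2 ⟨empty_subset _, empty_subset _⟩)]
  unfold kap ss
  simp

private theorem ss_mem_Nn {n : ℕ} {Y : Finset (Fin n)} {u v : Fin n → ℝ} {θ : ℝ} (hθ1 : θ < 1)
    (h : rel Y u = rel Y v) {p : Finset (Fin n) × Finset (Fin n)} (hp : p ∈ PY Y)
    (hm : ss p u ∈ Nn Y u θ) : ss p v ∈ Nn Y v θ := by
  rw [mem_Nn hθ1] at hm ⊢
  rw [D_ss Y u p hp, kap_ss, h] at hm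
  rw [D_ss Y v p hp, kap_ss]
  exact hm

private theorem Nn_ss {n : ℕ} {Y : Finset (Fin n)} {v : Fin n → ℝ} {θ : ℝ} {x : ℝ}
    (hx : x ∈ Nn Y v θ) : ∃ p ∈ PY Y, ss p v = x := by
  unfold Nn at hx
  rw [mem_filter, mem_image] at hx
  exact hx.1

open Classical in
private noncomputable def Esel {n : ℕ} (Y : Finset (Fin n)) (θ : ℝ) (u : Fin n → ℝ) :
    Finset (Finset (Fin n) × Finset (Fin n)) :=
  (Nn Y u θ).attach.image (fun x => (Nn_ss x.2).choose)

private theorem rel_iff {n : ℕ} {Y : Finset (Fin n)} {u v : Fin n → ℝ}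
    (h : rel Y u = rel Y v) {p q : Finset (Fin n) × Finset (Fin n)} (hp : p ∈ PY Y)
    (hq : q ∈ PY Y) (he : ss p u = ss q u) : ss p v = ss q v := by
  have h1 : (p, q) ∈ rel Y u := mem_filter.2 ⟨mem_product.2 ⟨hp, hq⟩, he⟩
  rw [h] at h1
  exact (mem_filter.1 h1).2

theorem exists_types {n : ℕ} (Y : Finset (Fin n)) (θ : ℝ) (hθ1 : θ < 1) :
    ∃ 𝓔 : Finset (Finset (Finset (Fin n) × Finset (Fin n))),
      𝓔.card ≤ (16 ^ Y.card) ^ Y.card ∧
      (∀ E ∈ 𝓔, ∀ p ∈ E, p.1 ⊆ Y ∧ p.2 ⊆ Y) ∧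
      ∀ v : Fin n → ℝ, ∃ E ∈ 𝓔, E.card ≤ (Nn Y v θ).card ∧
        ∀ x ∈ Nn Y v θ, ∃ p ∈ E, ∑ l ∈ p.1, v l - ∑ l ∈ p.2, v l = x := by
  classical
  set 𝓣 : Finset (Finset (P4 n)) := univ.filter (fun R => ∃ v, rel Y v = R) with hT
  have hTcard : 𝓣.card ≤ (16 ^ Y.card) ^ Y.card := by
    have hsub : 𝓣 ⊆ (Fintype.piFinset (fun _ : Fin Y.card => PY Y ×ˢ PY Y)).image (cl Y) := by
      intro R hR
      obtain ⟨v, rfl⟩ := (mem_filter.1 hR).2
      obtain ⟨τ, h1, h2⟩ := exists_tau Y v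
      rw [h2]
      exact mem_image_of_mem _ (Fintype.mem_piFinset.2 h1)
    refine (card_le_card hsub).trans (card_image_le.trans (le_of_eq ?_))
    rw [Fintype.card_piFinset]
    simp only [prod_const, card_univ, Fintype.card_fin, card_product, card_PY]
    rw [← mul_pow]
    norm_num
  have hu : ∀ R : Finset (P4 n), ∃ u : Fin n → ℝ, R ∈ 𝓣 → rel Y u = R := by
    intro R
    by_cases hR : R ∈ 𝓣
    · obtain ⟨v, hv⟩ := (mem_filter.1 hR).2
      exact ⟨v, fun _ => hv⟩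
    · exact ⟨0, fun h => absurd h hR⟩
  choose u hu using hu
  refine ⟨𝓣.image (fun R => Esel Y θ (u R)), card_image_le.trans hTcard, ?_, ?_⟩
  · intro E hE p hp
    obtain ⟨R, _, rfl⟩ := mem_image.1 hE
    obtain ⟨x, _, rfl⟩ := mem_image.1 hp
    exact mem_PY.1 (Nn_ss x.2).choose_spec.1
  · intro v
    have hR : rel Y v ∈ 𝓣 := mem_filter.2 ⟨mem_univ _, v, rfl⟩
    have hrel : rel Y (u (rel Y v)) = rel Y v := hu _ hR
    set w := u (rel Y v) with hw
    refine ⟨Esel Y θ w, mem_image.2 ⟨rel Y v, hR, rfl⟩, ?_, ?_⟩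
    · have h1 : (Esel Y θ w).card ≤ (Nn Y w θ).card := by
        refine card_image_le.trans ?_
        rw [card_attach]
      refine h1.trans ?_
      rw [← card_attach]
      apply card_le_card_of_injOn (fun x => ss (Nn_ss x.2).choose v)
      · intro x _
        apply mem_coe.2
        have hs := (Nn_ss x.2).choose_spec
        apply ss_mem_Nn hθ1 hrel hs.1
        rw [hs.2]
        exact x.2
      · intro x _ y _ hxy
        have hs := (Nn_ss x.2).choose_spec
        have ht := (Nn_ss y.2).choose_spec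
        have := rel_iff hrel.symm hs.1 ht.1 hxy
        rw [hs.2, ht.2] at this
        exact Subtype.ext this
    · intro x hx
      obtain ⟨p, hp, hpx⟩ := Nn_ss hx
      have h1 : ss p w ∈ Nn Y w θ := by
        apply ss_mem_Nn hθ1 hrel.symm hp
        rw [hpx]
        exact hx
      have hs := (Nn_ss h1).choose_spec
      refine ⟨(Nn_ss h1).choose, ?_, ?_⟩
      · exact mem_image.2 ⟨⟨ss p w, h1⟩, mem_attach _ _, rfl⟩
      · have := rel_iff hrel hs.1 hp hs.2
        rw [← hpx]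
        exact this

end SingG.Conc
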